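import Mathlib

/-!
Tame relation at finite level. `B` is a Dedekind domain, `P` a nonzero maximal ideal containing
the prime number `p`, `s` and `t` ring automorphisms with `s x ≡ x ^ q` and `t x ≡ x` modulo `P`.
Then `s t s⁻¹ t ^ (-q)` acts trivially on `B / P` and on `P / P²`. If it has finite order, the order
is a power of `p`.
-/

namespace Pool.Agent.EXK

section Fin

variable {B : Type*} [CommRing B] {P : Ideal B}

/-- An automorphism trivial on `B / P` and `P / P²` is trivial on `P ^ n / P ^ (n + 1)`. -/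
theorem gr_trivial {h : B ≃+* B} (h0 : ∀ x, h x - x ∈ P) (h1 : ∀ x ∈ P, h x - x ∈ P ^ 2) (n : ℕ) :
    ∀ x ∈ P ^ n, h x - x ∈ P ^ (n + 1) := by
  have hP : ∀ x ∈ P, h x ∈ P := fun x hx => by
    have := P.add_mem (h0 x) hx
    rwa [sub_add_cancel] at this
  induction n with
  | zero =>
    intro x _
    rw [zero_add, pow_one]
    exact h0 x
  | succ n ih =>
    intro x hx
    rw [pow_succ] at hx
    refine Submodule.mul_induction_on hx ?_ ?_
    · intro y hy z hz
      have e : h (y * z) - y * z = (h y - y) * h z + y * (h z - z) := by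
        rw [map_mul]; ring
      rw [e]
      refine Ideal.add_mem _ ?_ ?_
      · rw [pow_succ]
        exact Ideal.mul_mem_mul (ih y hy) (hP z hz)
      · have : P ^ (n + 1 + 1) = P ^ n * P ^ 2 := by rw [← pow_add]
        rw [this]
        exact Ideal.mul_mem_mul hy (h1 z hz)
    · intro y z hy hz
      have e : h (y + z) - (y + z) = (h y - y) + (h z - z) := by
        rw [map_add]; ring
      rw [e]
      exact Ideal.add_mem _ hy hz

/-- If moreover `h ^ r = 1` with `r` prime to the residue characteristic, then `h` is trivial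
modulo all powers of `P`. -/
theorem trivial_mod_pow {h : B ≃+* B} (h0 : ∀ x, h x - x ∈ P) (h1 : ∀ x ∈ P, h x - x ∈ P ^ 2)
    {r s : ℕ} (hr : ∀ x, (h ^ r) x = x) (hrs : (r * s : B) - 1 ∈ P) (n : ℕ) :
    ∀ x, h x - x ∈ P ^ n := by
  induction n with
  | zero => intro x; simp
  | succ n ih =>
    intro x
    set d := h x - x with hd
    have hdn : d ∈ P ^ n := ih x
    have hh : ∀ y ∈ P ^ (n + 1), h y ∈ P ^ (n + 1) := by
      intro y hy
      have h2 := gr_trivial h0 h1 (n + 1) y hy
      have h3 : h y - y ∈ P ^ (n + 1) := Ideal.pow_le_pow_right (Nat.le_succ _) h2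
      have := Ideal.add_mem _ h3 hy
      rwa [sub_add_cancel] at this
    have hj : ∀ j : ℕ, (h ^ j) x - x - j * d ∈ P ^ (n + 1) := by
      intro j
      induction j with
      | zero => simp
      | succ j ihj =>
        have e1 : (h ^ (j + 1)) x = h ((h ^ j) x) := by
          rw [pow_succ']; rfl
        have e2 : (h ^ (j + 1)) x - x - ((j + 1 : ℕ) : B) * d =
            h ((h ^ j) x - x - j * d) + (j : B) * (h d - d) := by
          rw [e1, map_sub, map_sub, map_mul, map_natCast, hd]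
          push_cast
          ring
        rw [e2]
        refine Ideal.add_mem _ (hh _ ihj) (Ideal.mul_mem_left _ _ (gr_trivial h0 h1 n d hdn))
    have h2 := hj r
    rw [hr, sub_self, zero_sub] at h2
    have h3 : (r : B) * d ∈ P ^ (n + 1) := by
      rwa [neg_mem_iff] at h2
    have h4 : d = (s : B) * ((r : B) * d) - ((r * s : B) - 1) * d := by ring
    rw [h4]
    refine Ideal.sub_mem _ (Ideal.mul_mem_left _ _ h3) ?_
    rw [pow_succ', ]
    exact Ideal.mul_mem_mul hrs hdn

end Fin

section Dedekind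

variable {B : Type*} [CommRing B] [IsDomain B] [IsNoetherianRing B] {P : Ideal B}

/-- An automorphism of finite order, trivial on `B / P` and `P / P²`, has order a power of `p`. -/
theorem pow_eq_one_of_trivial (hP : P.IsMaximal) {p : ℕ} (hp : p.Prime) (hpP : (p : B) ∈ P)
    {h : B ≃+* B} (h0 : ∀ x, h x - x ∈ P) (h1 : ∀ x ∈ P, h x - x ∈ P ^ 2) {M : ℕ} (hM : M ≠ 0)
    (hhM : ∀ x, (h ^ M) x = x) : ∃ a : ℕ, ∀ x, (h ^ p ^ a) x = x := by
  obtain ⟨a, r, hpr, rfl⟩ := Nat.exists_eq_pow_mul_and_not_dvd hM p hp.ne_one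
  refine ⟨a, ?_⟩
  set g : B ≃+* B := h ^ p ^ a with hg
  have hPow : ∀ j : ℕ, (∀ x, (h ^ j) x - x ∈ P) ∧ ∀ x ∈ P, (h ^ j) x - x ∈ P ^ 2 := by
    have hP2 : ∀ y ∈ P, h y ∈ P := fun y hy => by
      have := P.add_mem (h0 y) hy
      rwa [sub_add_cancel] at this
    intro j
    induction j with
    | zero => simp
    | succ j ih =>
      have e : ∀ x, (h ^ (j + 1)) x - x = (h ((h ^ j) x) - (h ^ j) x) + ((h ^ j) x - x) := by
        intro x
        rw [pow_succ']
        change h ((h ^ j) x) - x = _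
        ring
      refine ⟨fun x => ?_, fun x hx => ?_⟩
      · rw [e]
        exact P.add_mem (h0 _) (ih.1 x)
      · rw [e]
        refine Ideal.add_mem _ (h1 _ ?_) (ih.2 x hx)
        have := P.add_mem (ih.1 x) hx
        rwa [sub_add_cancel] at this
  have hgr : ∀ x, (g ^ r) x = x := by
    intro x
    rw [hg, ← pow_mul]
    exact hhM x
  obtain ⟨s, hs⟩ : ∃ s : ℕ, (r * s : B) - 1 ∈ P := by
    have hcop : Nat.Coprime r p := ((Nat.Prime.coprime_iff_not_dvd hp).mpr hpr).symm
    obtain ⟨s, -, hs⟩ := Nat.exists_mul_mod_eq_one_of_coprime hcop hp.one_lt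
    refine ⟨s, ?_⟩
    have h2 : r * s = p * (r * s / p) + 1 := by
      have := Nat.div_add_mod (r * s) p
      rw [hs] at this
      exact this.symm
    have h3 : (r * s : B) - 1 = (p : B) * ((r * s / p : ℕ) : B) := by
      have : ((r * s : ℕ) : B) = ((p * (r * s / p) + 1 : ℕ) : B) := by rw [← h2]
      push_cast at this
      rw [this]
      ring
    rw [h3]
    exact Ideal.mul_mem_right _ _ hpP
  intro x
  have h3 : g x - x ∈ ⨅ n : ℕ, P ^ n := by
    rw [Submodule.mem_iInf]
    intro n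
    exact trivial_mod_pow (hPow (p ^ a)).1 (hPow (p ^ a)).2 hgr hs n x
  rw [Ideal.iInf_pow_eq_bot_of_isDomain P hP.ne_top] at h3
  exact sub_eq_zero.mp h3

end Dedekind

section Tame

variable {B : Type*} [CommRing B] [IsDedekindDomain B] {P : Ideal B}

/-- The tame relation in `P / P²`. -/
theorem tame_trivial (hP : P.IsMaximal) (hP0 : P ≠ ⊥) {q : ℕ} (hq : q ≠ 0) {s t : B ≃+* B}
    (hs : ∀ x, s x - x ^ q ∈ P) (ht : ∀ x, t x - x ∈ P) :
    (∀ x, (s * t * s⁻¹ * (t ^ q)⁻¹) x - x ∈ P) ∧
      ∀ x ∈ P, (s * t * s⁻¹ * (t ^ q)⁻¹) x - x ∈ P ^ 2 := by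
  have sq : ∀ f : B ≃+* B, (∀ x ∈ P, f x ∈ P) → ∀ x ∈ P ^ 2, f x ∈ P ^ 2 := by
    intro f hf x hx
    rw [pow_two] at hx ⊢
    refine Submodule.mul_induction_on hx ?_ ?_
    · intro y hy z hz
      rw [map_mul]
      exact Ideal.mul_mem_mul (hf y hy) (hf z hz)
    · intro y z hy hz
      rw [map_add]
      exact Ideal.add_mem _ hy hz
  have mul2 : ∀ x ∈ P, ∀ y ∈ P, x * y ∈ P ^ 2 := by
    intro x hx y hy
    rw [pow_two]
    exact Ideal.mul_mem_mul hx hy
  have sP : ∀ x ∈ P, s x ∈ P := by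
    intro x hx
    have h1 : x ^ q ∈ P := Ideal.pow_mem_of_mem P hx q (Nat.pos_of_ne_zero hq)
    have := P.add_mem (hs x) h1
    rwa [sub_add_cancel] at this
  have tP : ∀ x ∈ P, t x ∈ P := by
    intro x hx
    have := P.add_mem (ht x) hx
    rwa [sub_add_cancel] at this
  have si : ∀ x, s (s⁻¹ x) = x := fun x => s.apply_symm_apply x
  have siP : ∀ x ∈ P, s⁻¹ x ∈ P := by
    intro x hx
    have h1 := hs (s⁻¹ x)
    rw [si] at h1
    have h2 : (s⁻¹ x) ^ q ∈ P := by
      have := P.sub_mem hx h1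
      rwa [sub_sub_cancel] at this
    exact hP.isPrime.mem_of_pow_mem q h2
  have tj : ∀ (j : ℕ) (x : B), (t ^ j) x - x ∈ P := by
    intro j
    induction j with
    | zero => intro x; simp
    | succ j ih =>
      intro x
      have e : (t ^ (j + 1)) x - x = (t ((t ^ j) x) - (t ^ j) x) + ((t ^ j) x - x) := by
        rw [pow_succ']
        change t ((t ^ j) x) - x = _
        ring
      rw [e]
      exact P.add_mem (ht _) (ih x)
  have Ti : ∀ x, (t ^ q) ((t ^ q)⁻¹ x) = x := fun x => (t ^ q).apply_symm_apply x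
  have Tix : ∀ x, (t ^ q)⁻¹ x - x ∈ P := by
    intro x
    have h1 := tj q ((t ^ q)⁻¹ x)
    rw [Ti] at h1
    have := P.neg_mem h1
    rwa [neg_sub] at this
  have TiP : ∀ x ∈ P, (t ^ q)⁻¹ x ∈ P := by
    intro x hx
    have := P.add_mem (Tix x) hx
    rwa [sub_add_cancel] at this
  constructor
  · intro x
    change s (t (s⁻¹ ((t ^ q)⁻¹ x))) - x ∈ P
    set z := (t ^ q)⁻¹ x with hz
    set y := s⁻¹ z with hy
    have e : s (t y) - x = (z - x) + s (t y - y) := by
      rw [map_sub, hy, si]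
      ring
    rw [e]
    exact P.add_mem (Tix x) (sP _ (ht y))
  · obtain ⟨π, hπ1, hπ2⟩ := Ideal.exists_mem_pow_notMem_pow_succ P hP0 hP.ne_top 1
    have hπ : π ∈ P := by rwa [pow_one] at hπ1
    have key : ∀ x ∈ P, ∃ d, ∃ e ∈ P ^ 2, π * d + e = x := by
      intro x hx
      haveI := hP.isPrime
      exact Ideal.exists_mul_add_mem_pow_succ hP0 π x hπ1 hπ2 (by rwa [pow_one])
    obtain ⟨u, e0, he0, hu⟩ := key (t π) (tP π hπ)
    have tu : ∀ x ∈ P, t x - u * x ∈ P ^ 2 := by
      intro x hx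
      obtain ⟨d, e, he, rfl⟩ := key x hx
      have e1 : t (π * d + e) - u * (π * d + e) =
          (π * (t d - d)) * u + e0 * t d + t e - u * e := by
        rw [map_add, map_mul, ← hu]
        ring
      rw [e1]
      refine Ideal.sub_mem _ (Ideal.add_mem _ (Ideal.add_mem _ ?_ ?_) ?_) ?_
      · exact Ideal.mul_mem_right _ _ (mul2 _ hπ _ (ht d))
      · exact Ideal.mul_mem_right _ _ he0
      · exact sq t tP e he
      · exact Ideal.mul_mem_left _ _ he
    have tju : ∀ (j : ℕ), ∀ x ∈ P, (t ^ j) x - u ^ j * x ∈ P ^ 2 := by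
      intro j
      induction j with
      | zero => intro x _; simp
      | succ j ih =>
        intro x hx
        have hxj : (t ^ j) x ∈ P := by
          have := P.add_mem (tj j x) hx
          rwa [sub_add_cancel] at this
        have e : (t ^ (j + 1)) x - u ^ (j + 1) * x =
            (t ((t ^ j) x) - u * (t ^ j) x) + u * ((t ^ j) x - u ^ j * x) := by
          rw [pow_succ']
          change t ((t ^ j) x) - _ = _
          ring
        rw [e]
        exact Ideal.add_mem _ (tu _ hxj) (Ideal.mul_mem_left _ _ (ih x hx))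
    intro x hx
    change s (t (s⁻¹ ((t ^ q)⁻¹ x))) - x ∈ P ^ 2
    set z := (t ^ q)⁻¹ x with hz
    have hzP : z ∈ P := TiP x hx
    set y := s⁻¹ z with hy
    have hyP : y ∈ P := siP z hzP
    have hsy : s y = z := by rw [hy, si]
    have hTz : (t ^ q) z = x := by rw [hz, Ti]
    have e : s (t y) - x = s (t y - u * y) + (s u - u ^ q) * z - ((t ^ q) z - u ^ q * z) := by
      rw [map_sub, map_mul, hsy, hTz]
      ring
    rw [e]
    exact Ideal.sub_mem _ (Ideal.add_mem _ (sq s sP _ (tu y hyP)) (mul2 _ (hs u) _ hzP))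
      (tju q z hzP)

end Tame

end Pool.Agent.EXK
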