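import Mathlib
import Pool.Agent.FRC.FRB1
import Pool.Agent.FRC.FRB2
import Pool.Agent.EXK.TAM0

/-!
The tame relation for representations on which the inertia group at `𝔓` acts unipotently of
level two: a Frobenius element at `𝔓` multiplies the logarithm of inertia by `q`.
-/

open CategoryTheory Polynomial NumberField

namespace Pool.Agent.EXK

open Pool.Agent.H12 Pool.Agent.FRC

section Finite

variable {k : Type} [Field k] [NumberField k]

/-- The action of `G_k` on the integers of a finite normal extension. -/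
noncomputable def actN (N : IntermediateField k (AlgebraicClosure k)) [Normal k N] :
    GG k →* RingAut (𝓞 N) :=
  (MulSemiringAction.toRingAut (N ≃ₐ[k] N) (𝓞 N)).comp (AlgEquiv.restrictNormalHom N)

omit [NumberField k] in
theorem actN_coe (N : IntermediateField k (AlgebraicClosure k)) [Normal k N] (g : GG k)
    (x : 𝓞 N) : (((actN N g x : 𝓞 N) : N) : AlgebraicClosure k) = g ((x : N) : AlgebraicClosure k) := by
  have h := AlgEquiv.restrictNormal_commutes g N (x : N)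
  exact h

theorem tame_pow_normal {𝔓 : Ideal (Zb k)} (h𝔓 : 𝔓.IsMaximal) {p : ℕ} (hp : p.Prime)
    (hp𝔓 : (p : Zb k) ∈ 𝔓) {q : ℕ} (hq : q ≠ 0) {φ σ : GG k} (hφ : FrobAt 𝔓 q φ)
    (hσ : FrobAt 𝔓 1 σ) (N : IntermediateField k (AlgebraicClosure k)) [FiniteDimensional k N]
    [Normal k N] : ∃ a : ℕ, (φ * σ * φ⁻¹ * (σ ^ q)⁻¹) ^ p ^ a ∈ N.fixingSubgroup := by
  have hNF : NumberField N := NumberField.of_module_finite k N
  set j : 𝓞 N →+* Zb k := algebraMap (𝓞 N) (Zb k) with hj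
  have hjc : ∀ x : 𝓞 N, ((j x : Zb k) : AlgebraicClosure k) = ((x : N) : AlgebraicClosure k) :=
    fun x => rfl
  have hint : Algebra.IsIntegral (𝓞 N) (Zb k) := by
    constructor
    intro x
    have h1 : IsIntegral ℤ x := RingOfIntegers.isIntegral x
    exact h1.tower_top
  set P : Ideal (𝓞 N) := 𝔓.comap j with hP
  have hPm : P.IsMaximal := Ideal.isMaximal_comap_of_isIntegral_of_isMaximal 𝔓
  have hP0 : P ≠ ⊥ :=
    Ring.ne_bot_of_isMaximal_of_not_isField hPm (RingOfIntegers.not_isField N)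
  have hpP : (p : 𝓞 N) ∈ P := by
    rw [hP, Ideal.mem_comap, map_natCast]
    exact hp𝔓
  have hs : ∀ x, actN N φ x - x ^ q ∈ P := by
    intro x
    rw [hP, Ideal.mem_comap, map_sub, map_pow]
    apply hφ
    rw [hjc, hjc, actN_coe]
  have ht : ∀ x, actN N σ x - x ∈ P := by
    intro x
    rw [hP, Ideal.mem_comap, map_sub]
    have h := hσ (j x) (j (actN N σ x)) (by rw [hjc, hjc, actN_coe])
    rwa [pow_one] at h
  obtain ⟨h0, h1⟩ := tame_trivial hPm hP0 hq hs ht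
  set g : GG k := φ * σ * φ⁻¹ * (σ ^ q)⁻¹ with hg
  have hact : actN N g = actN N φ * actN N σ * (actN N φ)⁻¹ * ((actN N σ) ^ q)⁻¹ := by
    rw [hg, map_mul, map_mul, map_mul, map_inv, map_inv, map_pow]
  have hM : Nat.card (N ≃ₐ[k] N) ≠ 0 := Nat.card_pos.ne'
  have hgM : ∀ x, ((actN N g) ^ Nat.card (N ≃ₐ[k] N)) x = x := by
    intro x
    have : (actN N g) ^ Nat.card (N ≃ₐ[k] N) = 1 := by
      rw [actN, MonoidHom.comp_apply, ← map_pow, pow_card_eq_one', map_one]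
    rw [this]
    rfl
  rw [← hact] at h0 h1
  obtain ⟨a, ha⟩ := pow_eq_one_of_trivial hPm hp hpP h0 h1 hM hgM
  refine ⟨a, ?_⟩
  rw [IntermediateField.mem_fixingSubgroup_iff]
  intro x hx
  have halg : IsAlgebraic ℤ (⟨x, hx⟩ : N) := by
    have h1 : Algebra.IsAlgebraic ℚ N := inferInstance
    exact (IsFractionRing.isAlgebraic_iff ℤ ℚ N).mpr (h1.isAlgebraic _)
  obtain ⟨m, hm0, hm⟩ := halg.exists_integral_multiple
  obtain ⟨b, hb⟩ : ∃ b : 𝓞 N, (b : N) = m • (⟨x, hx⟩ : N) := ⟨⟨m • (⟨x, hx⟩ : N), hm⟩, rfl⟩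
  have h2 := ha b
  rw [← map_pow] at h2
  have h3 : (g ^ p ^ a) ((b : N) : AlgebraicClosure k) = ((b : N) : AlgebraicClosure k) := by
    rw [← actN_coe, h2]
  have h4 : ((b : N) : AlgebraicClosure k) = (m : AlgebraicClosure k) * x := by
    rw [hb, zsmul_eq_mul]
    push_cast
    rfl
  rw [h4, map_mul, map_intCast] at h3
  have hmk : (m : AlgebraicClosure k) ≠ 0 := by exact_mod_cast hm0
  exact mul_left_cancel₀ hmk h3

theorem tame_pow {𝔓 : Ideal (Zb k)} (h𝔓 : 𝔓.IsMaximal) {p : ℕ} (hp : p.Prime)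
    (hp𝔓 : (p : Zb k) ∈ 𝔓) {q : ℕ} (hq : q ≠ 0) {φ σ : GG k} (hφ : FrobAt 𝔓 q φ)
    (hσ : FrobAt 𝔓 1 σ) (L : IntermediateField k (AlgebraicClosure k)) [FiniteDimensional k L] :
    ∃ a : ℕ, (φ * σ * φ⁻¹ * (σ ^ q)⁻¹) ^ p ^ a ∈ L.fixingSubgroup := by
  set N : IntermediateField k (AlgebraicClosure k) :=
    IntermediateField.normalClosure k L (AlgebraicClosure k) with hN
  have hfin : FiniteDimensional k N := inferInstance
  have hnorm : Normal k N := inferInstance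
  obtain ⟨a, ha⟩ := tame_pow_normal h𝔓 hp hp𝔓 hq hφ hσ N
  refine ⟨a, ?_⟩
  exact IntermediateField.fixingSubgroup_antitone (IntermediateField.le_normalClosure L) ha

end Finite

section Conj

variable {k : Type} [Field k]

theorem frobAt_conj {𝔓 : Ideal (Zb k)} (h𝔓 : 𝔓.IsMaximal) {q : ℕ} (hq : q ≠ 0) {φ σ : GG k}
    (hφ : FrobAt 𝔓 q φ) (hσ : FrobAt 𝔓 1 σ) : FrobAt 𝔓 1 (φ * σ * φ⁻¹) := by
  intro y z hz
  have hex : ∀ (g : GG k) (y : Zb k), ∃ w : Zb k,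
      (w : AlgebraicClosure k) = g (y : AlgebraicClosure k) := by
    intro g y
    have h : IsIntegral ℤ (y : AlgebraicClosure k) := RingOfIntegers.isIntegral_coe y
    have h2 : IsIntegral ℤ (g (y : AlgebraicClosure k)) :=
      h.map (g.toAlgHom.toRingHom.toIntAlgHom)
    exact ⟨⟨g (y : AlgebraicClosure k), h2⟩, rfl⟩
  obtain ⟨w, hw⟩ := hex φ⁻¹ y
  obtain ⟨v, hv⟩ := hex σ w
  have hy : (y : AlgebraicClosure k) = φ (w : AlgebraicClosure k) := by
    rw [hw]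
    exact (φ.apply_symm_apply _).symm
  have hz2 : (z : AlgebraicClosure k) = φ (v : AlgebraicClosure k) := by
    rw [hv, hw, hz]
    rfl
  have h1 : v - w ∈ 𝔓 := by
    have := hσ w v hv
    rwa [pow_one] at this
  rw [pow_one]
  refine (frobAt_stab h𝔓.isPrime hq hφ (v - w) (z - y) ?_).2 h1
  have e1 : ((z - y : Zb k) : AlgebraicClosure k) = (z : AlgebraicClosure k) - y :=
    map_sub (algebraMap (Zb k) (AlgebraicClosure k)) z y
  have e2 : ((v - w : Zb k) : AlgebraicClosure k) = (v : AlgebraicClosure k) - w :=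
    map_sub (algebraMap (Zb k) (AlgebraicClosure k)) v w
  rw [e1, e2, map_sub, hz2, hy]

theorem frobAt_one_pow {𝔓 : Ideal (Zb k)} {σ : GG k} (hσ : FrobAt 𝔓 1 σ) (n : ℕ) :
    FrobAt 𝔓 1 (σ ^ n) := by
  have := frobAt_pow hσ n
  rwa [one_pow] at this

theorem frobAt_one_inv {𝔓 : Ideal (Zb k)} (h𝔓 : 𝔓.IsMaximal) {σ : GG k} (hσ : FrobAt 𝔓 1 σ) :
    FrobAt 𝔓 1 σ⁻¹ := by
  have := frobAt_inv_mul h𝔓.isPrime one_ne_zero hσ (frobAt_one 𝔓)
  rwa [mul_one] at this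

theorem frobAt_one_mul {𝔓 : Ideal (Zb k)} {σ τ : GG k} (hσ : FrobAt 𝔓 1 σ)
    (hτ : FrobAt 𝔓 1 τ) : FrobAt 𝔓 1 (σ * τ) := frobAt_mul hσ hτ

end Conj

section Main

variable {k : Type} [Field k] [NumberField k] {ℓ : ℕ} [Fact ℓ.Prime]

/-- A continuous additive function on the inertia group at `𝔓`, with values in `ℚ_ℓ`, is
multiplied by `q` under conjugation by an element acting as the `q`-th power modulo `𝔓`. -/
theorem tame_conj {𝔓 : Ideal (Zb k)} (h𝔓 : 𝔓.IsMaximal) (hℓ : (ℓ : Zb k) ∉ 𝔓) {q : ℕ}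
    (hq : q ≠ 0) {φ : GG k} (hφ : FrobAt 𝔓 q φ) (n : GG k → ℚ_[ℓ]) (hn : ContinuousAt n 1)
    (hadd : ∀ σ τ : GG k, FrobAt 𝔓 1 σ → FrobAt 𝔓 1 τ → n (σ * τ) = n σ + n τ) (σ : GG k)
    (hσ : FrobAt 𝔓 1 σ) : n (φ * σ * φ⁻¹) = q * n σ := by
  have h1 : n 1 = 0 := by
    have := hadd 1 1 (frobAt_one 𝔓) (frobAt_one 𝔓)
    rw [mul_one] at this
    exact left_eq_add.mp this
  have hpow : ∀ (τ : GG k), FrobAt 𝔓 1 τ → ∀ m : ℕ, n (τ ^ m) = m * n τ := by
    intro τ hτ m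
    induction m with
    | zero => rw [pow_zero, h1, Nat.cast_zero, zero_mul]
    | succ m ih =>
      rw [pow_succ, hadd _ _ (frobAt_one_pow hτ m) hτ, ih]
      push_cast
      ring
  have hinv : ∀ (τ : GG k), FrobAt 𝔓 1 τ → n τ⁻¹ = - n τ := by
    intro τ hτ
    have := hadd τ τ⁻¹ hτ (frobAt_one_inv h𝔓 hτ)
    rw [mul_inv_cancel, h1] at this
    exact (neg_eq_of_add_eq_zero_right this.symm).symm
  set g : GG k := φ * σ * φ⁻¹ * (σ ^ q)⁻¹ with hg
  have hc : FrobAt 𝔓 1 (φ * σ * φ⁻¹) := frobAt_conj h𝔓 hq hφ hσ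
  have hσq : FrobAt 𝔓 1 (σ ^ q) := frobAt_one_pow hσ q
  have hgI : FrobAt 𝔓 1 g := frobAt_one_mul hc (frobAt_one_inv h𝔓 hσq)
  have hng : n g = n (φ * σ * φ⁻¹) - q * n σ := by
    rw [hg, hadd _ _ hc (frobAt_one_inv h𝔓 hσq), hinv _ hσq, hpow σ hσ q]
    ring
  have hn0 : n g = 0 := by
    by_contra hne
    rw [ContinuousAt, h1, (galGroupBasis k (AlgebraicClosure k)).nhds_one_hasBasis.tendsto_iff
      (Metric.nhds_basis_ball (α := ℚ_[ℓ]) (x := 0))] at hn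
    obtain ⟨U, ⟨_, ⟨E, hE, rfl⟩, rfl⟩, hU⟩ := hn ‖n g‖ (norm_pos_iff.mpr hne)
    have : FiniteDimensional k E := hE
    obtain ⟨p, f, hp, hf, hnrm, hpmem⟩ := nrm_prime_pow h𝔓
    obtain ⟨a, ha⟩ := tame_pow h𝔓 hp hpmem hq hφ hσ E
    have h2 := hU _ ha
    rw [Metric.mem_ball, dist_eq_norm, sub_zero, hpow g hgI] at h2
    have hpℓ : p ≠ ℓ := by
      rintro rfl
      exact hℓ hpmem
    have h3 : ‖((p ^ a : ℕ) : ℚ_[ℓ])‖ = 1 := by
      rw [Padic.norm_natCast_eq_one_iff]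
      exact Nat.Coprime.pow_right a ((Nat.coprime_primes Fact.out hp).mpr hpℓ.symm)
    rw [norm_mul, h3, one_mul] at h2
    exact lt_irrefl _ h2
  rw [hn0] at hng
  exact (sub_eq_zero.mp hng.symm)

/-- The tame relation: if inertia at `𝔓` acts unipotently of level two, then Frobenius multiplies
its logarithm by `q`. -/
theorem tame_action {𝔓 : Ideal (Zb k)} (h𝔓 : 𝔓.IsMaximal)
    (hℓ : (ℓ : Zb k) ∉ 𝔓) {q : ℕ} (hq : q ≠ 0) {φ : GG k} (hφ : FrobAt 𝔓 q φ) (X : RepG k ℓ)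
    [FiniteDimensional ℚ_[ℓ] X] (hX : IsCont X)
    (hI : ∀ σ τ : GG k, FrobAt 𝔓 1 σ → FrobAt 𝔓 1 τ → ∀ x : X,
      X.ρ σ (X.ρ τ x - x) = X.ρ τ x - x)
    (σ : GG k) (hσ : FrobAt 𝔓 1 σ) (x : X) :
    X.ρ (φ * σ * φ⁻¹) x - x = (q : ℚ_[ℓ]) • (X.ρ σ x - x) := by
  rw [← sub_eq_zero, ← Module.forall_dual_apply_eq_zero_iff ℚ_[ℓ]]
  intro f
  have h := tame_conj h𝔓 hℓ hq hφ (fun g => f (X.ρ g x - x)) ?_ ?_ σ hσ
  · have h' : f (X.ρ (φ * σ * φ⁻¹) x - x) = q * f (X.ρ σ x - x) := h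
    rw [map_sub, map_smul, h', smul_eq_mul, sub_self]
  · have : (fun g : GG k => f (X.ρ g x - x)) = fun g => f (X.ρ g x) - f x := by
      ext g
      rw [map_sub]
    rw [this]
    exact ((hX x f).sub continuous_const).continuousAt
  · intro s t hs ht
    have h2 := hI s t hs ht x
    rw [map_sub] at h2
    have h3 : X.ρ (s * t) x = X.ρ s (X.ρ t x) := by rw [map_mul]; rfl
    rw [← map_add, h3]
    congr 1
    rw [eq_add_of_sub_eq h2]
    abel

end Main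

end Pool.Agent.EXK
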