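import Mathlib
import Pool.Agent.FRC.K0
import Pool.Agent.EXK.TAM

/-!
Local splitting. Let `X` be an extension of `E` by `V(1)` whose restriction to `V ⊆ E` is
`K_κ ⊗ V`. If `V` and `E` are unramified at `𝔓` and `κ` is ramified at `𝔓`, then the logarithm of
inertia is a retraction `E → V` compatible with Frobenius at `𝔓`.
-/

open CategoryTheory Polynomial NumberField

namespace Pool.Agent.EXK

open Pool.Agent.H12 Pool.Agent.FRC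

variable {k : Type} [Field k] [NumberField k] {ℓ : ℕ} [Fact ℓ.Prime]

theorem chi_of_frobAt {𝔓 : Ideal (Zb k)} (h𝔓 : 𝔓.IsMaximal) (hℓ : (ℓ : Zb k) ∉ 𝔓) {q : ℕ}
    {σ : GG k} (hσ : FrobAt 𝔓 q σ) : chi k ℓ σ = q := by
  rw [chi, cyc_of_frobAt h𝔓 hℓ hσ]
  simp

theorem loc_retract {X V E : RepG k ℓ} [FiniteDimensional ℚ_[ℓ] X] (hX : IsCont X)
    (i m : V →ₗ[ℚ_[ℓ]] X) (p : X →ₗ[ℚ_[ℓ]] E) (j : V →ₗ[ℚ_[ℓ]] E) (κ : GG k → ℤ_[ℓ])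
    (hi : Function.Injective i)
    (hig : ∀ g v, X.ρ g (i v) = i (chi k ℓ g • V.ρ g v))
    (hmg : ∀ g v, X.ρ g (m v) = m (V.ρ g v) + (κ g : ℚ_[ℓ]) • i (V.ρ g v))
    (hpg : ∀ g x, p (X.ρ g x) = E.ρ g (p x)) (hp : Function.Surjective p)
    (hex : ∀ x, p x = 0 → ∃ v, i v = x) (hmj : ∀ v, p (m v) = j v)
    {𝔓 : Ideal (Zb k)} (h𝔓 : 𝔓.IsMaximal) (hℓ : (ℓ : Zb k) ∉ 𝔓)
    (hV : ∀ σ : GG k, FrobAt 𝔓 1 σ → ∀ v : V, V.ρ σ v = v)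
    (hE : ∀ σ : GG k, FrobAt 𝔓 1 σ → ∀ e : E, E.ρ σ e = e)
    {q : ℕ} (hq : q ≠ 0) {φ : GG k} (hφ : FrobAt 𝔓 q φ) {τ : GG k} (hτ : FrobAt 𝔓 1 τ)
    (hκ : κ τ ≠ 0) :
    ∃ r : E →ₗ[ℚ_[ℓ]] V, (∀ v, r (j v) = v) ∧ ∀ e, r (E.ρ φ e) = V.ρ φ (r e) := by
  have hiI : ∀ σ : GG k, FrobAt 𝔓 1 σ → ∀ v, X.ρ σ (i v) = i v := by
    intro σ hσ v
    rw [hig, chi_of_frobAt h𝔓 hℓ hσ, hV σ hσ, Nat.cast_one, one_smul]
  have hrange : ∀ σ : GG k, FrobAt 𝔓 1 σ → ∀ x, ∃ v, i v = X.ρ σ x - x := by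
    intro σ hσ x
    apply hex
    rw [map_sub, hpg, hE σ hσ, sub_self]
  have hI : ∀ σ τ : GG k, FrobAt 𝔓 1 σ → FrobAt 𝔓 1 τ → ∀ x : X,
      X.ρ σ (X.ρ τ x - x) = X.ρ τ x - x := by
    intro σ τ hσ hτ x
    obtain ⟨v, hv⟩ := hrange τ hτ x
    rw [← hv, hiI σ hσ]
  -- the logarithm
  have hker : LinearMap.ker i = ⊥ := LinearMap.ker_eq_bot.mpr hi
  obtain ⟨ρi, hρi⟩ := LinearMap.exists_leftInverse_of_injective i hker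
  have hρi' : ∀ v, ρi (i v) = v := fun v => congrArg (fun f : V →ₗ[ℚ_[ℓ]] V => f v) hρi
  let L : X →ₗ[ℚ_[ℓ]] V := ρi ∘ₗ ((X.ρ τ : X →ₗ[ℚ_[ℓ]] X) - LinearMap.id)
  have hL : ∀ x, i (L x) = X.ρ τ x - x := by
    intro x
    obtain ⟨v, hv⟩ := hrange τ hτ x
    have h1 : L x = ρi (X.ρ τ x - x) := rfl
    rw [h1, ← hv, hρi']
  have hLi : ∀ v, L (i v) = 0 := by
    intro v
    apply hi
    rw [hL, hiI τ hτ, sub_self, map_zero]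
  obtain ⟨s, hs⟩ := LinearMap.exists_rightInverse_of_surjective p (LinearMap.range_eq_top.mpr hp)
  have hs' : ∀ e, p (s e) = e := fun e => congrArg (fun f : E →ₗ[ℚ_[ℓ]] E => f e) hs
  let L' : E →ₗ[ℚ_[ℓ]] V := L ∘ₗ s
  have hL' : ∀ x, L' (p x) = L x := by
    intro x
    have h1 : p (s (p x) - x) = 0 := by rw [map_sub, hs', sub_self]
    obtain ⟨v, hv⟩ := hex _ h1
    have h2 : L (s (p x) - x) = 0 := by rw [← hv, hLi]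
    rw [map_sub, sub_eq_zero] at h2
    exact h2
  have hq0 : (q : ℚ_[ℓ]) ≠ 0 := Nat.cast_ne_zero.mpr hq
  have hφL : ∀ x, L (X.ρ φ x) = V.ρ φ (L x) := by
    intro x
    apply hi
    have h1 := tame_action h𝔓 hℓ hq hφ X hX hI τ hτ (X.ρ φ x)
    have h2 : X.ρ (φ * τ * φ⁻¹) (X.ρ φ x) = X.ρ φ (X.ρ τ x) := by
      have e : φ * τ * φ⁻¹ * φ = φ * τ := by group
      have e1 : X.ρ (φ * τ * φ⁻¹) (X.ρ φ x) = X.ρ (φ * τ * φ⁻¹ * φ) x := by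
        rw [map_mul X.ρ (φ * τ * φ⁻¹) φ]
        rfl
      rw [e1, e, map_mul]
      rfl
    rw [h2, ← map_sub, ← hL, ← hL, hig, chi_of_frobAt h𝔓 hℓ hφ, map_smul] at h1
    exact (smul_right_injective _ hq0 h1).symm
  have hκ0 : (κ τ : ℚ_[ℓ]) ≠ 0 := by
    rw [Ne, PadicInt.coe_eq_zero]
    exact hκ
  refine ⟨(κ τ : ℚ_[ℓ])⁻¹ • L', fun v => ?_, fun e => ?_⟩
  · have h1 : L (m v) = (κ τ : ℚ_[ℓ]) • v := by
      apply hi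
      rw [hL, hmg, hV τ hτ, map_smul]
      abel
    rw [LinearMap.smul_apply, ← hmj, hL', h1, smul_smul, inv_mul_cancel₀ hκ0, one_smul]
  · obtain ⟨x, rfl⟩ := hp e
    rw [LinearMap.smul_apply, LinearMap.smul_apply, ← hpg, hL', hL', hφL, map_smul]

end Pool.Agent.EXK
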