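import Mathlib
import Pool.Agent.H12.Seq

open Polynomial

namespace Pool.Agent.EXK

/-- An `ℓ`-adic integer congruent to `1` modulo `ℓ ^ 3` is the `ℓ`-th power of an `ℓ`-adic integer
congruent to `1` modulo `ℓ ^ 2`. -/
theorem exists_root_one {ℓ : ℕ} [Fact ℓ.Prime] (u : ℤ_[ℓ]) (hu : (ℓ : ℤ_[ℓ]) ^ 3 ∣ u - 1) :
    ∃ w : ℤ_[ℓ], w ^ ℓ = u ∧ (ℓ : ℤ_[ℓ]) ^ 2 ∣ w - 1 := by
  have hp : (1 : ℝ) < ℓ := by exact_mod_cast (Fact.out : ℓ.Prime).one_lt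
  have hnorm : ‖u - 1‖ ≤ (ℓ : ℝ) ^ (-(3 : ℕ) : ℤ) :=
    (PadicInt.norm_le_pow_iff_mem_span_pow _ 3).mpr (Ideal.mem_span_singleton.mpr hu)
  have h := hensels_lemma (p := ℓ) (F := (X ^ ℓ - C u : ℤ_[ℓ][X])) (a := (1 : ℤ_[ℓ])) (by
    simp only [map_sub, map_pow, aeval_X, one_pow, aeval_C, Algebra.algebraMap_self,
      RingHom.id_apply, derivative_X_pow, derivative_C, sub_zero, map_mul,
      map_natCast, mul_one]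
    rw [norm_sub_rev, PadicInt.norm_p]
    refine lt_of_le_of_lt hnorm ?_
    rw [← zpow_neg_one, ← zpow_natCast, ← zpow_mul]
    exact zpow_lt_zpow_right₀ hp (by norm_num))
  obtain ⟨z, hz, hz2, -⟩ := h
  simp only [map_sub, map_pow, aeval_X, aeval_C, Algebra.algebraMap_self, RingHom.id_apply,
    sub_eq_zero] at hz
  refine ⟨z, hz, ?_⟩
  simp only [map_sub, map_pow, aeval_X, one_pow, aeval_C, Algebra.algebraMap_self,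
      RingHom.id_apply, derivative_X_pow, derivative_C, sub_zero, map_mul,
      map_natCast, mul_one] at hz2
  rw [PadicInt.norm_p] at hz2
  rw [← Ideal.mem_span_singleton, ← PadicInt.norm_le_pow_iff_mem_span_pow,
    PadicInt.norm_le_pow_iff_norm_lt_pow_add_one]
  have : (-((2 : ℕ) : ℤ) + 1) = -1 := by norm_num
  rw [this, zpow_neg_one]
  exact hz2

private theorem sq_pow {R : Type*} [CommRing R] (x : R) (β : ℕ) :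
    ∃ t : R, (1 + x) ^ β = 1 + β * x + x ^ 2 * t := by
  induction β with
  | zero => exact ⟨0, by simp⟩
  | succ n ih =>
    obtain ⟨t, ht⟩ := ih
    refine ⟨t + n + x * t, ?_⟩
    rw [pow_succ, ht]
    push_cast
    ring

/-- One step. -/
theorem sq_step {ℓ : ℕ} [Fact ℓ.Prime] (y : ℤ_[ℓ]) (hy : (ℓ : ℤ_[ℓ]) ^ 2 ∣ y - 1) (s : ℕ)
    (hs : ¬ ℓ ∣ s) : ∃ β : ℕ, (ℓ : ℤ_[ℓ]) ^ 3 ∣ y * ((1 + ℓ ^ 2 * s : ℕ) : ℤ_[ℓ]) ^ β - 1 := by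
  obtain ⟨d, hd⟩ := hy
  have hs' : ((s : ℕ) : ZMod ℓ) ≠ 0 := by
    rw [Ne, ZMod.natCast_eq_zero_iff]
    exact hs
  set b : ZMod ℓ := -(PadicInt.toZMod d) * (s : ZMod ℓ)⁻¹ with hb
  have h1 : PadicInt.toZMod (d + (b.val : ℤ_[ℓ]) * (s : ℤ_[ℓ])) = 0 := by
    rw [map_add, map_mul, map_natCast, map_natCast, ZMod.natCast_zmod_val, hb, mul_assoc,
      inv_mul_cancel₀ hs', mul_one, add_neg_cancel]
  rw [← RingHom.mem_ker, PadicInt.ker_toZMod, PadicInt.maximalIdeal_eq_span_p,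
    Ideal.mem_span_singleton] at h1
  obtain ⟨e, he⟩ := h1
  obtain ⟨t, ht⟩ := sq_pow ((ℓ : ℤ_[ℓ]) ^ 2 * (s : ℤ_[ℓ])) b.val
  refine ⟨b.val, ?_⟩
  have hy1 : y = 1 + (ℓ : ℤ_[ℓ]) ^ 2 * d := by linear_combination hd
  push_cast
  rw [ht, hy1]
  refine ⟨e + (ℓ : ℤ_[ℓ]) * (s : ℤ_[ℓ]) ^ 2 * t + (ℓ : ℤ_[ℓ]) * d * ((b.val : ℤ_[ℓ]) * s) +
    (ℓ : ℤ_[ℓ]) ^ 3 * d * (s : ℤ_[ℓ]) ^ 2 * t, ?_⟩
  linear_combination (ℓ : ℤ_[ℓ]) ^ 2 * he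

/-- Sequences `A n` of products of powers of `p` and of a number `r` prime to `p`, in which the
exponent of `p` is constant, and which are `ℓ ^ n`-th powers in `ℤ_ℓ`. -/
theorem exists_seq_two (ℓ p : ℕ) [Fact ℓ.Prime] (hp : p.Prime) (hpℓ : p ≠ ℓ) :
    ∃ (m A : ℕ → ℕ) (r c : ℕ), A 0 = 1 ∧ (∀ i, A (i + 1) = A i * m i ^ ℓ ^ i) ∧
      (∀ i, 0 < m i) ∧ 0 < r ∧ ¬ p ∣ r ∧ 0 < c ∧ (∀ n, ∃ b, A (n + 1) = p ^ c * r ^ b) ∧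
      (∀ i, ∃ y : ℤ_[ℓ]ˣ, (y : ℤ_[ℓ]) ^ ℓ ^ i = A i) := by
  have hℓ : ℓ.Prime := Fact.out
  -- the choice of `s`
  obtain ⟨s, hs, hps⟩ : ∃ s : ℕ, ¬ ℓ ∣ s ∧ ¬ p ∣ 1 + ℓ ^ 2 * s := by
    by_cases h : p ∣ 1 + ℓ ^ 2 * 1
    · refine ⟨1 + ℓ, ?_, ?_⟩
      · intro h1
        have h2 : ℓ ∣ 1 := (Nat.dvd_add_left (dvd_refl ℓ)).mp h1
        exact hℓ.one_lt.ne' (Nat.dvd_one.mp h2)
      · intro h1
        have h2 : 1 + ℓ ^ 2 * (1 + ℓ) = (1 + ℓ ^ 2 * 1) + ℓ ^ 3 := by ring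
        rw [h2] at h1
        have h3 : p ∣ ℓ ^ 3 := (Nat.dvd_add_right h).mp h1
        exact hpℓ ((Nat.prime_dvd_prime_iff_eq hp hℓ).mp (hp.dvd_of_dvd_pow h3))
    · exact ⟨1, fun h1 => hℓ.one_lt.ne' (Nat.dvd_one.mp h1), h⟩
  set r := 1 + ℓ ^ 2 * s with hr
  set c := Nat.totient (ℓ ^ 2) * ℓ with hc
  have hc0 : 0 < c := Nat.mul_pos (Nat.totient_pos.mpr (pow_pos hℓ.pos 2)) hℓ.pos
  -- states
  let Inv : ℕ → ℕ → Prop := fun i b => ∃ y : ℤ_[ℓ], y ^ ℓ ^ (i + 1) = (p ^ c * r ^ b : ℕ) ∧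
    (ℓ : ℤ_[ℓ]) ^ 2 ∣ y - 1
  have hinit : Inv 0 0 := by
    refine ⟨((p ^ Nat.totient (ℓ ^ 2) : ℕ) : ℤ_[ℓ]), ?_, ?_⟩
    · rw [pow_zero, mul_one, zero_add, pow_one, hc, pow_mul]
      push_cast
      rfl
    · have h1 : p ^ Nat.totient (ℓ ^ 2) ≡ 1 [MOD ℓ ^ 2] := by
        apply Nat.ModEq.pow_totient
        exact Nat.Coprime.pow_right 2 ((Nat.coprime_primes hp hℓ).mpr hpℓ)
      have h2 : ((ℓ ^ 2 : ℕ) : ℤ) ∣ ((p ^ Nat.totient (ℓ ^ 2) : ℕ) : ℤ) - ((1 : ℕ) : ℤ) :=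
        Nat.modEq_iff_dvd.mp h1.symm
      obtain ⟨k, hk⟩ := h2
      refine ⟨(k : ℤ_[ℓ]), ?_⟩
      have := congrArg (Int.cast : ℤ → ℤ_[ℓ]) hk
      push_cast at this ⊢
      exact this
  have hstep : ∀ i (b : {b // Inv i b}), ∃ β : ℕ, Inv (i + 1) (b.1 + β * ℓ ^ (i + 1)) := by
    rintro i ⟨b, y, hy1, hy2⟩
    obtain ⟨β, hβ⟩ := sq_step y hy2 s hs
    obtain ⟨w, hw1, hw2⟩ := exists_root_one _ hβ
    refine ⟨β, w, ?_, hw2⟩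
    have h1 : w ^ ℓ ^ (i + 1 + 1) = y ^ ℓ ^ (i + 1) * ((r : ℤ_[ℓ]) ^ β) ^ ℓ ^ (i + 1) := by
      rw [pow_succ', pow_mul, hw1, mul_pow, ← hr]
    change w ^ ℓ ^ (i + 1 + 1) = ((p ^ c * r ^ (b + β * ℓ ^ (i + 1)) : ℕ) : ℤ_[ℓ])
    rw [h1, hy1]
    push_cast
    ring
  choose T hT using hstep
  let S : ∀ i, {b // Inv i b} := fun i => Nat.rec ⟨0, hinit⟩
    (fun i b => ⟨b.1 + T i b * ℓ ^ (i + 1), hT i b⟩) i
  have hS : ∀ i, (S (i + 1)).1 = (S i).1 + T i (S i) * ℓ ^ (i + 1) := fun i => rfl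
  have hr0 : 0 < r := by omega
  have hunit : ∀ y : ℤ_[ℓ], (ℓ : ℤ_[ℓ]) ^ 2 ∣ y - 1 → IsUnit y := by
    intro y hy
    by_contra hu
    have h1 : y ∈ IsLocalRing.maximalIdeal ℤ_[ℓ] := (IsLocalRing.mem_maximalIdeal _).mpr hu
    rw [PadicInt.maximalIdeal_eq_span_p, Ideal.mem_span_singleton] at h1
    have h2 : (ℓ : ℤ_[ℓ]) ∣ y - 1 := (dvd_pow_self _ two_ne_zero).trans hy
    have h3 : (ℓ : ℤ_[ℓ]) ∣ 1 := by
      have := dvd_sub h1 h2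
      rwa [sub_sub_cancel] at this
    exact PadicInt.prime_p.not_isUnit (isUnit_of_dvd_one h3)
  refine ⟨fun i => Nat.casesOn i (p ^ c) (fun j => r ^ T j (S j)),
    fun i => Nat.casesOn i 1 (fun j => p ^ c * r ^ (S j).1), r, c, rfl, ?_, ?_, hr0, hps, hc0,
    fun n => ⟨(S n).1, rfl⟩, ?_⟩
  · intro i
    cases i with
    | zero =>
      change p ^ c * r ^ 0 = 1 * (p ^ c) ^ ℓ ^ 0
      ring
    | succ i =>
      change p ^ c * r ^ (S (i + 1)).1 = p ^ c * r ^ (S i).1 * (r ^ T i (S i)) ^ ℓ ^ (i + 1)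
      rw [hS]
      ring
  · intro i
    cases i with
    | zero => exact pow_pos hp.pos c
    | succ i => exact pow_pos hr0 _
  · intro i
    cases i with
    | zero => exact ⟨1, by simp⟩
    | succ i =>
      obtain ⟨y, hy1, hy2⟩ := (S i).2
      exact ⟨(hunit y hy2).unit, hy1⟩

end Pool.Agent.EXK
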