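import Mathlib
import Pool.Agent.FRC.H3A
import Pool.Agent.EXK.SQ

open CategoryTheory CategoryTheory.Limits CategoryTheory.Abelian Polynomial NumberField TensorProduct

namespace Pool.Agent.EXK

open Pool.Agent.H12 Pool.Agent.FRC

variable {k : Type} [Field k] [NumberField k] {ℓ : ℕ} [Fact ℓ.Prime]

/-- A finite extension of `ℚ_ℓ` that contains the image of `k`. -/
private theorem KI_exists_L (ι : AlgebraicClosure k →+* PadicAlgCl ℓ) :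
    ∃ L : IntermediateField ℚ_[ℓ] (PadicAlgCl ℓ), FiniteDimensional ℚ_[ℓ] L ∧
      (∀ x : k, ι (algebraMap k (AlgebraicClosure k) x) ∈ L) := by
  obtain ⟨θ, hθ⟩ := Field.exists_primitive_element ℚ k
  refine ⟨IntermediateField.adjoin ℚ_[ℓ] {ι (algebraMap k _ θ)},
    IntermediateField.adjoin.finiteDimensional (Algebra.IsIntegral.isIntegral _), ?_⟩
  intro x
  have hx : x ∈ IntermediateField.adjoin ℚ {θ} := by rw [hθ]; trivial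
  let f : k →+* PadicAlgCl ℓ := ι.comp (algebraMap k _)
  have h2 : ∀ y ∈ IntermediateField.adjoin ℚ {θ},
      f y ∈ IntermediateField.adjoin ℚ_[ℓ] {ι (algebraMap k _ θ)} := by
    intro y hy
    induction hy using IntermediateField.adjoin_induction with
    | mem y hy =>
      rw [Set.mem_singleton_iff.mp hy]
      exact IntermediateField.mem_adjoin_simple_self _ _
    | algebraMap y =>
      have : f (algebraMap ℚ k y) = algebraMap ℚ_[ℓ] (PadicAlgCl ℓ) (y : ℚ_[ℓ]) := by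
        simp
      rw [this]
      exact IntermediateField.algebraMap_mem _ _
    | add y z _ _ hy hz => rw [map_add]; exact add_mem hy hz
    | inv y _ hy => rw [map_inv₀]; exact inv_mem hy
    | mul y z _ _ hy hz => rw [map_mul]; exact mul_mem hy hz
  exact h2 x hx

/-- Restriction to `G_L` of a representation of the Galois group of `ℚ_ℓ`. -/
private noncomputable def KIres (X : LRep ℚ_[ℓ] ℓ)
    (L : IntermediateField ℚ_[ℓ] (PadicAlgCl ℓ)) : Rep.{0} ℚ_[ℓ] L.fixingSubgroup :=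
  Rep.of (X.ρ.comp L.fixingSubgroup.subtype)

private theorem KI_semistable (X : LRep ℚ_[ℓ] ℓ) (L : IntermediateField ℚ_[ℓ] (PadicAlgCl ℓ))
    (b : Module.Basis (Fin (Module.finrank ℚ_[ℓ] X.V)) (Bst ℓ) (Bst ℓ ⊗[ℚ_[ℓ]] X.V))
    (hb : ∀ (σ : GalP ℓ) i, TensorProduct.map (actBstLin σ) (X.ρ σ) (b i) = b i) :
    IsSemistable L (KIres X L) := by
  refine ⟨X.instFin, fun v f => ?_, b, fun σ i => hb σ i⟩
  exact (X.cont v f).comp continuous_subtype_val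

/-- If locally `V` is the image of a semistable representation, it is potentially semistable. -/
private theorem KI_pst (V : RepG k ℓ)
    (h : ∀ ι : AlgebraicClosure k →+* PadicAlgCl ℓ, ∃ (X : LRep ℚ_[ℓ] ℓ)
      (b : Module.Basis (Fin (Module.finrank ℚ_[ℓ] X.V)) (Bst ℓ) (Bst ℓ ⊗[ℚ_[ℓ]] X.V))
      (π : X.V →ₗ[ℚ_[ℓ]] V), Function.Surjective π ∧
      (∀ (σ : GalP ℓ) i, TensorProduct.map (actBstLin σ) (X.ρ σ) (b i) = b i) ∧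
      ∀ (σ : GalP ℓ) (g : GG k), (∀ x, ι (g x) = σ (ι x)) → ∀ x, π (X.ρ σ x) = V.ρ g (π x)) :
    IsPst V := by
  intro ι
  obtain ⟨L, hL1, hL2⟩ := KI_exists_L ι
  obtain ⟨X, b, π, hπ, hb, hg⟩ := h ι
  refine ⟨L, hL1, hL2, KIres X L, KI_semistable X L b hb, ⊤,
    π.comp (Submodule.subtype (⊤ : Submodule ℚ_[ℓ] X.V)), ?_, fun _ _ _ => trivial, ?_⟩
  · intro y
    obtain ⟨x, hx⟩ := hπ y
    exact ⟨⟨x, trivial⟩, hx⟩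
  · intro σ g hσg a b hab
    have h1 := hg σ g hσg a.1
    exact (congrArg π hab).trans h1

private theorem KI_act_tinv (σ : GalP ℓ) (j : ℕ) :
    actBst σ (((tSt : (Bst ℓ)ˣ)⁻¹ ^ j : (Bst ℓ)ˣ) : Bst ℓ) =
      algebraMap ℚ_[ℓ] (Bst ℓ) ((((cyc ℚ_[ℓ] ℓ σ : ℤ_[ℓ]) : ℚ_[ℓ]) ^ j)⁻¹) *
        (((tSt : (Bst ℓ)ˣ)⁻¹ ^ j : (Bst ℓ)ˣ) : Bst ℓ) :=
  unit_pow_eigen (B := Bst ℓ) (K := ℚ_[ℓ]) (actBst σ) tSt
    ((cyc ℚ_[ℓ] ℓ σ : ℤ_[ℓ]) : ℚ_[ℓ]) (chi_ne_zero ℚ_[ℓ] ℓ σ) (actBst_t σ) j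

private theorem KI_basis {K B : Type} [CommRing K] [CommRing B] [Algebra K B] (T : Bˣ) (w : B) :
    ∃ b : Module.Basis (Fin 2) B (B ⊗[K] (K × K)),
      b 0 = (T : B) ⊗ₜ ((1, 0) : K × K) ∧
      b 1 = (1 : B) ⊗ₜ ((0, 1) : K × K) - w ⊗ₜ ((1, 0) : K × K) := by
  let e : Module.Basis (Fin 2) B (B ⊗[K] (K × K)) := (Module.Basis.finTwoProd K).baseChange B
  let v : Fin 2 → B ⊗[K] (K × K) := ![(T : B) ⊗ₜ ((1, 0) : K × K),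
    (1 : B) ⊗ₜ ((0, 1) : K × K) - w ⊗ₜ ((1, 0) : K × K)]
  have hdet : IsUnit (e.det v) := by
    have h00 : e.repr (v 0) 0 = T := by
      simp [e, v, Module.Basis.baseChange_repr_tmul]
    have h01 : e.repr (v 0) 1 = 0 := by
      simp [e, v, Module.Basis.baseChange_repr_tmul]
    have h10 : e.repr (v 1) 0 = -w := by
      simp [e, v, Module.Basis.baseChange_repr_tmul]
    have h11 : e.repr (v 1) 1 = 1 := by
      simp [e, v, Module.Basis.baseChange_repr_tmul]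
    rw [Module.Basis.det_apply, Matrix.det_fin_two]
    simp only [Module.Basis.toMatrix_apply, h00, h01, h10, h11]
    simp
  obtain ⟨h1, h2⟩ := (Module.Basis.is_basis_iff_det e).mpr hdet
  refine ⟨Module.Basis.mk h1 h2.ge, ?_, ?_⟩
  · rw [Module.Basis.mk_apply]; rfl
  · rw [Module.Basis.mk_apply]; rfl

private theorem KI_fix {K B : Type} [Field K] [CommRing B] [Algebra K B] (φ : B →ₗ[K] B)
    (ρ : (K × K) →ₗ[K] K × K) (T w : B) (χ c : K) (hχ : χ ≠ 0)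
    (h1 : φ T = algebraMap K B χ⁻¹ * T)
    (h2 : φ w = algebraMap K B χ⁻¹ * (w + algebraMap K B c)) (h3 : φ 1 = 1)
    (h4 : ρ (1, 0) = (χ, 0)) (h5 : ρ (0, 1) = (c, 1)) :
    TensorProduct.map φ ρ (T ⊗ₜ ((1, 0) : K × K)) = T ⊗ₜ ((1, 0) : K × K) ∧
    TensorProduct.map φ ρ ((1 : B) ⊗ₜ ((0, 1) : K × K) - w ⊗ₜ ((1, 0) : K × K)) =
      (1 : B) ⊗ₜ ((0, 1) : K × K) - w ⊗ₜ ((1, 0) : K × K) := by
  have e1 : ((χ, 0) : K × K) = χ • ((1, 0) : K × K) := by ext <;> simp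
  have e2 : ((c, 1) : K × K) = ((0, 1) : K × K) + c • ((1, 0) : K × K) := by ext <;> simp
  have e3 : ∀ z : B, (algebraMap K B χ⁻¹ * z) ⊗ₜ[K] (χ • ((1, 0) : K × K)) =
      z ⊗ₜ[K] ((1, 0) : K × K) := by
    intro z
    rw [TensorProduct.tmul_smul, ← Algebra.smul_def, ← TensorProduct.smul_tmul', smul_smul,
      mul_inv_cancel₀ hχ, one_smul]
  constructor
  · rw [TensorProduct.map_tmul, h1, h4, e1, e3]
  · rw [map_sub, TensorProduct.map_tmul, TensorProduct.map_tmul, h2, h3, h4, h5, e1, e3, e2,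
      TensorProduct.tmul_add, TensorProduct.add_tmul, TensorProduct.tmul_smul,
      Algebra.algebraMap_eq_smul_one, ← TensorProduct.smul_tmul']
    abel


/-- An extension of `ℚ_ℓ` by `ℚ_ℓ(1)` that splits at every place above `ℓ` is potentially
semistable. -/
theorem kum_isPst (κ : GG k → ℤ_[ℓ]) (hκ : ∀ g h, κ (g * h) = κ g + (cyc k ℓ g : ℤ_[ℓ]) * κ h)
    (hc : Continuous κ)
    (hloc : ∀ ι : AlgebraicClosure k →+* PadicAlgCl ℓ, ∃ c : ℤ_[ℓ],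
      ∀ (g : GG k) (σ : GalP ℓ), (∀ x, ι (g x) = σ (ι x)) →
      κ g = ((cyc k ℓ g : ℤ_[ℓ]) - 1) * c) :
    IsPst (Rep.of (kum 0 κ hκ hc).ρ : RepG k ℓ) := by
  apply KI_pst
  intro ι
  obtain ⟨c, hcl⟩ := hloc ι
  have hc1 : ∀ g h : GalP ℓ, (fun _ => 0 : GalP ℓ → ℤ_[ℓ]) (g * h) =
      (fun _ => 0 : GalP ℓ → ℤ_[ℓ]) g + (cyc ℚ_[ℓ] ℓ g : ℤ_[ℓ]) *
        (fun _ => 0 : GalP ℓ → ℤ_[ℓ]) h := fun g h => by simp
  have hc2 : Continuous (fun _ => 0 : GalP ℓ → ℤ_[ℓ]) := continuous_const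
  have hfin : Module.finrank ℚ_[ℓ] (kum (k := ℚ_[ℓ]) 0 (fun _ => 0) hc1 hc2).V = 2 := by
    change Module.finrank ℚ_[ℓ] (ℚ_[ℓ] × ℚ_[ℓ]) = 2
    simp
  set T : Bst ℓ := (((tSt : (Bst ℓ)ˣ)⁻¹ : (Bst ℓ)ˣ) : Bst ℓ) with hT
  obtain ⟨b, hb0, hb1⟩ := KI_basis (K := ℚ_[ℓ]) (B := Bst ℓ) (tSt : (Bst ℓ)ˣ)⁻¹ 0
  have hfix : ∀ (σ : GalP ℓ) (i : Fin 2), TensorProduct.map (actBstLin σ)
      ((kum (k := ℚ_[ℓ]) 0 (fun _ => 0) hc1 hc2).ρ σ : (ℚ_[ℓ] × ℚ_[ℓ]) →ₗ[ℚ_[ℓ]] ℚ_[ℓ] × ℚ_[ℓ])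
      (b i) = b i := by
    intro σ
    have hχ : chi ℚ_[ℓ] ℓ σ ≠ 0 := chi_ne_zero ℚ_[ℓ] ℓ σ
    have g1 : actBst σ T = algebraMap ℚ_[ℓ] (Bst ℓ) (chi ℚ_[ℓ] ℓ σ)⁻¹ * T := by
      have := KI_act_tinv σ 1
      rw [pow_one, pow_one] at this
      exact this
    obtain ⟨k1, k2⟩ := KI_fix (actBstLin σ) ((kum (k := ℚ_[ℓ]) 0 (fun _ => 0) hc1 hc2).ρ σ :
      (ℚ_[ℓ] × ℚ_[ℓ]) →ₗ[ℚ_[ℓ]] ℚ_[ℓ] × ℚ_[ℓ]) T 0 (chi ℚ_[ℓ] ℓ σ)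
      0 hχ g1 (by rw [map_zero, map_zero, add_zero, mul_zero]) (map_one (actBst σ))
      (by
        change ((chi ℚ_[ℓ] ℓ σ ^ (0 + 1) * 1 + chi ℚ_[ℓ] ℓ σ ^ 0 * ((0 : ℤ_[ℓ]) : ℚ_[ℓ]) * 0,
          chi ℚ_[ℓ] ℓ σ ^ 0 * 0) : ℚ_[ℓ] × ℚ_[ℓ]) = _
        ext <;> simp)
      (by
        change ((chi ℚ_[ℓ] ℓ σ ^ (0 + 1) * 0 + chi ℚ_[ℓ] ℓ σ ^ 0 * ((0 : ℤ_[ℓ]) : ℚ_[ℓ]) * 1,
          chi ℚ_[ℓ] ℓ σ ^ 0 * 1) : ℚ_[ℓ] × ℚ_[ℓ]) = _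
        ext <;> simp)
    intro i
    fin_cases i
    · change TensorProduct.map _ _ (b 0) = b 0
      rw [hb0]
      exact k1
    · change TensorProduct.map _ _ (b 1) = b 1
      rw [hb1]
      exact k2
  let π : (ℚ_[ℓ] × ℚ_[ℓ]) →ₗ[ℚ_[ℓ]] ℚ_[ℓ] × ℚ_[ℓ] :=
    LinearMap.prod
      (LinearMap.fst ℚ_[ℓ] ℚ_[ℓ] ℚ_[ℓ] - (c : ℚ_[ℓ]) • LinearMap.snd ℚ_[ℓ] ℚ_[ℓ] ℚ_[ℓ])
      (LinearMap.snd ℚ_[ℓ] ℚ_[ℓ] ℚ_[ℓ])
  refine ⟨kum (k := ℚ_[ℓ]) 0 (fun _ => 0) hc1 hc2, b.reindex (finCongr hfin.symm), π, ?_, ?_, ?_⟩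
  · intro (y : ℚ_[ℓ] × ℚ_[ℓ])
    refine ⟨(y.1 + (c : ℚ_[ℓ]) * y.2, y.2), ?_⟩
    apply Prod.ext
    · change y.1 + (c : ℚ_[ℓ]) * y.2 - (c : ℚ_[ℓ]) * y.2 = y.1
      ring
    · rfl
  · intro σ i
    have h1 : (b.reindex (finCongr hfin.symm)) i = b (finCongr hfin i) := by
      rw [Module.Basis.reindex_apply]
      rfl
    exact (congrArg _ h1).trans ((hfix σ _).trans h1.symm)
  · intro σ g hσg (x : ℚ_[ℓ] × ℚ_[ℓ])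
    have h1 : chi ℚ_[ℓ] ℓ σ = chi k ℓ g := by rw [chi, chi, cyc_compat ι g σ hσg]
    have h2 : (κ g : ℚ_[ℓ]) = (chi k ℓ g - 1) * c := by
      rw [hcl g σ hσg]
      push_cast
      rfl
    apply Prod.ext
    · change (chi ℚ_[ℓ] ℓ σ ^ (0 + 1) * x.1 +
          chi ℚ_[ℓ] ℓ σ ^ 0 * ((0 : ℤ_[ℓ]) : ℚ_[ℓ]) * x.2) -
          (c : ℚ_[ℓ]) * (chi ℚ_[ℓ] ℓ σ ^ 0 * x.2) =
        chi k ℓ g ^ (0 + 1) * (x.1 - (c : ℚ_[ℓ]) * x.2) +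
          chi k ℓ g ^ 0 * (κ g : ℚ_[ℓ]) * x.2
      rw [h1, h2, PadicInt.coe_zero]
      ring
    · change chi ℚ_[ℓ] ℓ σ ^ 0 * x.2 = chi k ℓ g ^ 0 * x.2
      rw [pow_zero, pow_zero]

end Pool.Agent.EXK
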