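import Mathlib
import Pool.Agent.EXK.KI

open CategoryTheory CategoryTheory.Limits CategoryTheory.Abelian Polynomial NumberField TensorProduct

namespace Pool.Agent.EXK

open Pool.Agent.H12 Pool.Agent.FRC

variable {k : Type} [Field k] [NumberField k] {ℓ : ℕ} [Fact ℓ.Prime]

private theorem kj_nrm_ne_zero {𝔓 : Ideal (Zb k)} (h𝔓 : 𝔓.IsMaximal) {q : ℕ} {σ : GG k}
    (hσ : FrobAt 𝔓 q σ) : q ≠ 0 := by
  rintro rfl
  have h1 := hσ 0 0 (by simp)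
  rw [pow_zero, zero_sub, neg_mem_iff] at h1
  exact h𝔓.ne_top ((Ideal.eq_top_iff_one _).mpr h1)

private theorem kj_chi {𝔓 : Ideal (Zb k)} (h𝔓 : 𝔓.IsMaximal) (hℓ : (ℓ : Zb k) ∉ 𝔓) {q : ℕ}
    {σ : GG k} (hσ : FrobAt 𝔓 q σ) : chi k ℓ σ = q := by
  rw [chi, cyc_of_frobAt h𝔓 hℓ hσ]
  simp

private theorem kj_chi_inv {𝔓 : Ideal (Zb k)} (h𝔓 : 𝔓.IsMaximal) (hℓ : (ℓ : Zb k) ∉ 𝔓) {q : ℕ}
    {σ : GG k} (hσ : FrobAt 𝔓 q σ) : chi k ℓ σ⁻¹ = (q : ℚ_[ℓ])⁻¹ := by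
  have h4 : chi k ℓ σ * chi k ℓ σ⁻¹ = 1 := by rw [← chi_mul, mul_inv_cancel, chi_one]
  rw [kj_chi h𝔓 hℓ hσ] at h4
  exact eq_inv_of_mul_eq_one_right h4

private theorem kj_weil {q : ℕ} (hq : q ≠ 0) (j : ℕ) (μ : AlgebraicClosure ℚ_[ℓ])
    (hμ : aeval μ (X - C (((q : ℚ_[ℓ])⁻¹) ^ j) : ℚ_[ℓ][X]) = 0) : IsWeil q (-2 * j) μ := by
  rw [map_sub, aeval_X, aeval_C, sub_eq_zero] at hμ
  have h6 : μ = algebraMap ℚ (AlgebraicClosure ℚ_[ℓ]) (((q : ℚ)⁻¹) ^ j) := by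
    rw [hμ]
    simp
  refine ⟨h6 ▸ isAlgebraic_algebraMap _, ?_⟩
  intro z hz
  rw [h6, minpoly.eq_X_sub_C, map_sub, aeval_X, aeval_C, sub_eq_zero] at hz
  rw [hz]
  have h9 : (0 : ℝ) < q := by exact_mod_cast Nat.pos_of_ne_zero hq
  push_cast
  rw [norm_pow, norm_inv, Complex.norm_natCast]
  have h10 : (-2 * (j : ℝ)) / 2 = -(j : ℝ) := by ring
  rw [h10, Real.rpow_neg h9.le, Real.rpow_natCast, inv_pow]

private theorem kj_lin1 {K : Type} [Field K] (c d : K) (T : Module.End K (K × K))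
    (hT : ∀ v, T v = (c * v.1 + d * v.2, v.2)) (v : K × K) (hv : v.2 = 0) :
    aeval T (X - C c : K[X]) v = 0 := by
  rw [map_sub, aeval_X, aeval_C, LinearMap.sub_apply, hT, hv, Module.algebraMap_end_apply]
  apply Prod.ext <;> simp [hv]

private theorem kj_lin2 {K : Type} [Field K] (c d : K) (T : Module.End K (K × K))
    (hT : ∀ v, T v = (c * v.1 + d * v.2, v.2)) (v : K × K) :
    (aeval T (X - C 1 : K[X]) v).2 = 0 := by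
  rw [map_sub, aeval_X, aeval_C, LinearMap.sub_apply, hT, Module.algebraMap_end_apply]
  simp


private theorem kj_kum_apply (κ : GG k → ℤ_[ℓ])
    (hκ : ∀ g h, κ (g * h) = κ g + (cyc k ℓ g : ℤ_[ℓ]) * κ h) (hc : Continuous κ)
    (g : GG k) (v : ℚ_[ℓ] × ℚ_[ℓ]) :
    (Rep.of (kum 0 κ hκ hc).ρ : RepG k ℓ).ρ g v =
      ((chi k ℓ g * v.1 + (κ g : ℚ_[ℓ]) * v.2, v.2) : ℚ_[ℓ] × ℚ_[ℓ]) := by
  have h := kum_apply 0 κ hκ hc g v
  refine Eq.trans h ?_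
  simp

private theorem kj_kum_mixed (κ : GG k → ℤ_[ℓ])
    (hκ : ∀ g h, κ (g * h) = κ g + (cyc k ℓ g : ℤ_[ℓ]) * κ h) (hc : Continuous κ) :
    ∃ W : ℤ → Submodule ℚ_[ℓ] (Rep.of (kum 0 κ hκ hc).ρ : RepG k ℓ),
      MixedP (Rep.of (kum 0 κ hκ hc).ρ : RepG k ℓ) ℓ W := by
  obtain ⟨S, hS⟩ : ∃ S : Submodule ℚ_[ℓ] (Rep.of (kum 0 κ hκ hc).ρ : RepG k ℓ), ∀ v : (Rep.of (kum 0 κ hκ hc).ρ : RepG k ℓ), v ∈ S ↔
      (v : ℚ_[ℓ] × ℚ_[ℓ]).2 = 0 :=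
    ⟨(LinearMap.ker (LinearMap.snd ℚ_[ℓ] ℚ_[ℓ] ℚ_[ℓ]) : Submodule ℚ_[ℓ] (ℚ_[ℓ] × ℚ_[ℓ])),
      fun v => Iff.rfl⟩
  obtain ⟨W, hW1, hW2, hW3⟩ : ∃ W : ℤ → Submodule ℚ_[ℓ] (Rep.of (kum 0 κ hκ hc).ρ : RepG k ℓ), (∀ m, m < -2 → W m = ⊥) ∧
      (∀ m, -2 ≤ m → m < 0 → W m = S) ∧ (∀ m, 0 ≤ m → W m = ⊤) :=
    ⟨fun m => if m < -2 then ⊥ else if m < 0 then S else ⊤, fun m hm => if_pos hm,
      fun m hm hm' => (if_neg (by omega)).trans (if_pos hm'),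
      fun m hm => (if_neg (by omega)).trans (if_neg (by omega))⟩
  refine ⟨W, ?_, ⟨-3, hW1 _ (by omega)⟩, ⟨0, hW3 _ le_rfl⟩, ?_, ?_⟩
  · intro m n hmn
    rcases lt_or_ge m (-2) with h | h
    · rw [hW1 m h]; exact bot_le
    · rcases lt_or_ge n 0 with h' | h'
      · rw [hW2 m h (by omega), hW2 n (by omega) h']
      · rw [hW3 n h']; exact le_top
  · intro m g v hv
    rcases lt_or_ge m (-2) with h | h
    · rw [hW1 m h] at hv ⊢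
      rw [(Submodule.mem_bot _).1 hv, map_zero]
      exact Submodule.zero_mem _
    · rcases lt_or_ge m 0 with h' | h'
      · rw [hW2 m h h', hS] at hv ⊢
        exact (congrArg Prod.snd (kj_kum_apply κ hκ hc g v)).trans hv
      · rw [hW3 m h']; exact Submodule.mem_top
  · intro 𝔓 h𝔓 hN σ hσ m
    have hq := kj_nrm_ne_zero h𝔓 hσ
    have hχ := kj_chi_inv h𝔓 hN hσ
    by_cases hm2 : m = -2
    · subst hm2
      refine ⟨X - C ((nrm 𝔓 : ℚ_[ℓ])⁻¹), X_sub_C_ne_zero _, ?_, ?_⟩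
      · intro μ hμ
        have := kj_weil hq 1 μ (by rw [pow_one]; exact hμ)
        simpa using this
      · intro v hv
        rw [hW2 _ (by omega) (by omega), hS] at hv
        rw [hW1 _ (by omega), Submodule.mem_bot]
        exact kj_lin1 _ (κ σ⁻¹ : ℚ_[ℓ]) _ (fun v => by
          rw [← hχ]; exact kj_kum_apply κ hκ hc σ⁻¹ v) v hv
    · by_cases hm0 : m = 0
      · subst hm0
        refine ⟨X - C 1, X_sub_C_ne_zero _, ?_, ?_⟩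
        · intro μ hμ
          have := kj_weil hq 0 μ (by rw [pow_zero]; exact hμ)
          simpa using this
        · intro v _
          rw [hW2 _ (by omega) (by omega), hS]
          exact kj_lin2 _ (κ σ⁻¹ : ℚ_[ℓ]) _ (fun v => kj_kum_apply κ hκ hc σ⁻¹ v) v
      · refine ⟨1, one_ne_zero, fun μ hμ => ?_, fun v hv => ?_⟩
        · rw [map_one] at hμ
          exact absurd hμ one_ne_zero
        · rw [map_one, Module.End.one_apply]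
          rcases lt_or_ge m (-2) with h | h
          · rw [hW1 m h] at hv
            rw [(Submodule.mem_bot _).1 hv]
            exact Submodule.zero_mem _
          · rcases lt_or_ge m 0 with h' | h'
            · rw [hW2 m h h'] at hv
              rw [hW2 (m - 1) (by omega) (by omega)]
              exact hv
            · rw [hW3 (m - 1) (by omega)]
              exact Submodule.mem_top


/-- The extension of `ℚ_ℓ` by `ℚ_ℓ(1)` given by `κ` is in the category as soon as `κ` is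
unramified outside `N` and splits at every place above `ℓ`. -/
theorem kum_inC_of (κ : GG k → ℤ_[ℓ]) (hκ : ∀ g h, κ (g * h) = κ g + (cyc k ℓ g : ℤ_[ℓ]) * κ h)
    (hc : Continuous κ) (N : ℕ) (hN : N ≠ 0)
    (hunr : ∀ 𝔓 : Ideal (Zb k), 𝔓.IsMaximal → (N : Zb k) ∉ 𝔓 → ∀ σ : GG k, FrobAt 𝔓 1 σ → κ σ = 0)
    (hloc : ∀ ι : AlgebraicClosure k →+* PadicAlgCl ℓ, ∃ c : ℤ_[ℓ],
      ∀ (g : GG k) (σ : GalP ℓ), (∀ x, ι (g x) = σ (ι x)) →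
      κ g = ((cyc k ℓ g : ℤ_[ℓ]) - 1) * c) :
    InC k ℓ (Rep.of (kum 0 κ hκ hc).ρ) := by
  have hℓ : ℓ.Prime := Fact.out
  have hfin : FiniteDimensional ℚ_[ℓ] (Rep.of (kum 0 κ hκ hc).ρ : RepG k ℓ) :=
    inferInstanceAs (FiniteDimensional ℚ_[ℓ] (ℚ_[ℓ] × ℚ_[ℓ]))
  have hu : ∃ N : ℕ, N ≠ 0 ∧ UnramOutside (Rep.of (kum 0 κ hκ hc).ρ : RepG k ℓ) N := by
    refine ⟨N * ℓ, Nat.mul_ne_zero hN hℓ.ne_zero, ?_⟩
    intro 𝔓 h𝔓 hNℓ σ hσ (v : ℚ_[ℓ] × ℚ_[ℓ])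
    rw [Nat.cast_mul] at hNℓ
    have h2 := kj_chi (ℓ := ℓ) h𝔓 (fun h => hNℓ (𝔓.mul_mem_left _ h)) hσ
    have h3 := hunr 𝔓 h𝔓 (fun h => hNℓ (𝔓.mul_mem_right _ h)) σ hσ
    refine (kj_kum_apply κ hκ hc σ v).trans ?_
    rw [h2, h3]
    simp
  refine ⟨hfin, (kum 0 κ hκ hc).cont, hu, ?_, kum_isPst κ hκ hc hloc⟩
  rw [isMixed_iff _ hfin hu]
  obtain ⟨W, hW⟩ := kj_kum_mixed κ hκ hc
  exact ⟨ℓ, W, hℓ.ne_zero, hW⟩

/-- A Kummer cocycle whose numbers divide powers of `N` is unramified outside `N ℓ`. -/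
theorem kummer_unram (ζ : ℕ → AlgebraicClosure k) (hζ : ∀ n, IsPrimitiveRoot (ζ n) (ℓ ^ n))
    (A : ℕ → ℕ) (u : ℕ → AlgebraicClosure k) (hA : ∀ n, u n ^ ℓ ^ n = A n)
    (κ : GG k → ℤ_[ℓ])
    (hκ : ∀ n g, g (u n) = ζ n ^ (PadicInt.toZModPow n (κ g)).val * u n)
    {𝔓 : Ideal (Zb k)} (h𝔓 : 𝔓.IsMaximal) (hℓ : (ℓ : Zb k) ∉ 𝔓)
    (hA𝔓 : ∀ n, (A n : Zb k) ∉ 𝔓) {σ : GG k} (hσ : FrobAt 𝔓 1 σ) : κ σ = 0 := by
  have hpr : ℓ.Prime := Fact.out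
  apply PadicInt.ext_of_toZModPow.mp
  intro n
  have : NeZero (ℓ ^ n) := ⟨pow_ne_zero _ hpr.ne_zero⟩
  set a := (PadicInt.toZModPow n (κ σ)).val with ha
  have hζ := hζ n
  have hint1 : ∀ x : AlgebraicClosure k, x ^ ℓ ^ n = 1 → IsIntegral ℤ x := by
    intro x hx
    exact ⟨X ^ ℓ ^ n - 1, monic_X_pow_sub_C 1 (NeZero.ne _), by simp [hx]⟩
  have hζa : (ζ n ^ a) ^ ℓ ^ n = 1 := by
    rw [← pow_mul, mul_comm, pow_mul, hζ.pow_eq_one, one_pow]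
  have hintu : IsIntegral ℤ (u n) := by
    refine IsIntegral.of_pow (pow_pos hpr.pos n) ?_
    rw [hA n]
    exact isIntegral_algebraMap (R := ℤ) (x := (A n : ℤ)) |> fun h => by simpa using h
  let z : Zb k := ⟨ζ n ^ a, hint1 _ hζa⟩
  let y : Zb k := ⟨u n, hintu⟩
  have hz : z ^ ℓ ^ n = 1 := Subtype.ext hζa
  have hy : y ^ ℓ ^ n = (A n : Zb k) := by
    apply Subtype.ext
    have := hA n
    push_cast
    exact this
  have h1 : z * y - y ^ 1 ∈ 𝔓 := hσ y (z * y) (hκ n σ).symm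
  have h2 : (z - 1) * y ∈ 𝔓 := by
    have : z * y - y ^ 1 = (z - 1) * y := by ring
    rwa [this] at h1
  have hy𝔓 : y ∉ 𝔓 := by
    intro hmem
    apply hA𝔓 n
    rw [← hy]
    exact Ideal.pow_mem_of_mem _ hmem _ (pow_pos hpr.pos n)
  have h3 : z - 1 ∈ 𝔓 := (h𝔓.isPrime.mem_or_mem h2).resolve_right hy𝔓
  have h4 : z = 1 := root_eq_of_mem h𝔓 hℓ n z 1 hz (one_pow _) h3
  have h5 : ζ n ^ a = ζ n ^ 0 := by
    rw [pow_zero]; exact congrArg Subtype.val h4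
  have h6 : a = 0 := hζ.pow_inj (ZMod.val_lt _) (pow_pos hpr.pos n) h5
  rw [map_zero]
  exact (ZMod.val_eq_zero _).mp h6

end Pool.Agent.EXK
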