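import Mathlib
import Pool.Agent.FRC.H2A
import Pool.Agent.EXK.KJ

/-!
The objects `W(1)` and `W ⊗ K`, where `K` is the extension of `ℚ_ℓ` by `ℚ_ℓ(1)` given by a
cocycle `κ`.
-/

open CategoryTheory Polynomial NumberField TensorProduct

namespace Pool.Agent.EXK

open Pool.Agent.H12 Pool.Agent.FRC

variable {k : Type} [Field k] [NumberField k] {ℓ : ℕ} [Fact ℓ.Prime]

/-- The action on `W(1)`. -/
noncomputable def twRho (W : RepG k ℓ) : Representation ℚ_[ℓ] (GG k) W where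
  toFun g := chi k ℓ g • W.ρ g
  map_one' := by rw [chi_one, map_one, one_smul]
  map_mul' := fun g h => by
    rw [chi_mul, map_mul]
    apply LinearMap.ext
    intro w
    change (chi k ℓ g * chi k ℓ h) • W.ρ g (W.ρ h w) =
      chi k ℓ g • W.ρ g (chi k ℓ h • W.ρ h w)
    rw [map_smul, smul_smul]

/-- The representation `W(1)`. -/
noncomputable def twRep (W : RepG k ℓ) : RepG k ℓ := Rep.of (twRho W)

theorem twRep_apply (W : RepG k ℓ) (g : GG k) (w : W) :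
    (twRep W).ρ g w = chi k ℓ g • W.ρ g w := rfl

/-- The action on `W ⊗ K`. -/
noncomputable def kumRho (W : RepG k ℓ) (κ : GG k → ℤ_[ℓ])
    (hκ : ∀ g h, κ (g * h) = κ g + (cyc k ℓ g : ℤ_[ℓ]) * κ h) :
    Representation ℚ_[ℓ] (GG k) (W × W) where
  toFun := fun g =>
    { toFun := fun w => (chi k ℓ g • W.ρ g w.1 + (κ g : ℚ_[ℓ]) • W.ρ g w.2, W.ρ g w.2)
      map_add' := fun v w => by
        apply Prod.ext
        · simp only [Prod.fst_add, Prod.snd_add, map_add, smul_add]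
          abel
        · simp only [Prod.snd_add, map_add]
      map_smul' := fun c v => by
        apply Prod.ext
        · simp only [Prod.smul_fst, Prod.smul_snd, map_smul, RingHom.id_apply, smul_add]
          rw [smul_comm (chi k ℓ g) c, smul_comm (κ g : ℚ_[ℓ]) c]
        · simp only [Prod.smul_snd, map_smul, RingHom.id_apply] }
  map_one' := by
    have h1 : κ 1 = 0 := by
      have := hκ 1 1
      simpa using this
    apply LinearMap.ext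
    intro v
    apply Prod.ext
    · change chi k ℓ 1 • W.ρ 1 v.1 + (κ 1 : ℚ_[ℓ]) • W.ρ 1 v.2 = v.1
      rw [chi_one, h1, map_one, one_smul, PadicInt.coe_zero, zero_smul, add_zero]
      rfl
    · change W.ρ 1 v.2 = v.2
      rw [map_one]
      rfl
  map_mul' := fun g h => by
    apply LinearMap.ext
    intro v
    have e : ∀ w : W, W.ρ (g * h) w = W.ρ g (W.ρ h w) := fun w => by rw [map_mul]; rfl
    apply Prod.ext
    · change chi k ℓ (g * h) • W.ρ (g * h) v.1 + (κ (g * h) : ℚ_[ℓ]) • W.ρ (g * h) v.2 =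
        chi k ℓ g • W.ρ g (chi k ℓ h • W.ρ h v.1 + (κ h : ℚ_[ℓ]) • W.ρ h v.2) +
          (κ g : ℚ_[ℓ]) • W.ρ g (W.ρ h v.2)
      rw [chi_mul, hκ, e, e, map_add, map_smul, map_smul, smul_add, smul_smul, smul_smul]
      have h2 : ((κ g + (cyc k ℓ g : ℤ_[ℓ]) * κ h : ℤ_[ℓ]) : ℚ_[ℓ]) =
          chi k ℓ g * (κ h : ℚ_[ℓ]) + (κ g : ℚ_[ℓ]) := by
        rw [PadicInt.coe_add, PadicInt.coe_mul]
        have : ((cyc k ℓ g : ℤ_[ℓ]) : ℚ_[ℓ]) = chi k ℓ g := rfl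
        rw [this]
        ring
      rw [h2, add_smul, add_assoc]
    · change W.ρ (g * h) v.2 = W.ρ g (W.ρ h v.2)
      exact e _

/-- The representation `W ⊗ K`. -/
noncomputable def kumRep (W : RepG k ℓ) (κ : GG k → ℤ_[ℓ])
    (hκ : ∀ g h, κ (g * h) = κ g + (cyc k ℓ g : ℤ_[ℓ]) * κ h) : RepG k ℓ :=
  Rep.of (kumRho W κ hκ)

theorem kumRep_apply (W : RepG k ℓ) (κ : GG k → ℤ_[ℓ])
    (hκ : ∀ g h, κ (g * h) = κ g + (cyc k ℓ g : ℤ_[ℓ]) * κ h) (g : GG k) (w : W × W) :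
    (kumRep W κ hκ).ρ g w =
      ((chi k ℓ g • W.ρ g w.1 + (κ g : ℚ_[ℓ]) • W.ρ g w.2, W.ρ g w.2) : W × W) := rfl

theorem inC_of_surj {X Y : RepG k ℓ} (f : X →ₗ[ℚ_[ℓ]] Y)
    (hf : ∀ g x, f (X.ρ g x) = Y.ρ g (f x)) (hs : Function.Surjective f) (hX : InC k ℓ X) :
    InC k ℓ Y := by
  let F : X ⟶ Y := Rep.ofHom (f.intertwiningMap_of_isIntertwiningMap X.ρ Y.ρ hf)
  have hF : Epi F := (Rep.epi_iff_surjective F).2 hs
  exact (InC k ℓ).prop_of_epi F hX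

/-- `W(1)` is in the category. -/
theorem twRep_inC {W : RepG k ℓ} (hW : InC k ℓ W) : InC k ℓ (twRep W) := by
  have h1 := inC_tenF k ℓ (tateRep_inC k ℓ 1) (tateRep_isPure k ℓ 1) W hW
  have := hW.1
  let f : (ℚ_[ℓ] ⊗[ℚ_[ℓ]] W) →ₗ[ℚ_[ℓ]] W := (TensorProduct.lid ℚ_[ℓ] W).toLinearMap
  refine inC_of_surj (X := (tenF (tateRep k ℓ 1)).obj W) (Y := twRep W) f ?_
    (TensorProduct.lid ℚ_[ℓ] W).surjective h1
  intro g x
  let A : ℚ_[ℓ] →ₗ[ℚ_[ℓ]] ℚ_[ℓ] := (tateRep k ℓ 1).ρ g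
  have key : f ∘ₗ (TensorProduct.map A (W.ρ g : W →ₗ[ℚ_[ℓ]] W)) = twRho W g ∘ₗ f := by
    apply TensorProduct.ext'
    intro a w
    change TensorProduct.lid ℚ_[ℓ] W ((chi k ℓ g ^ 1 * a) ⊗ₜ[ℚ_[ℓ]] W.ρ g w) =
      chi k ℓ g • W.ρ g (TensorProduct.lid ℚ_[ℓ] W (a ⊗ₜ[ℚ_[ℓ]] w))
    rw [TensorProduct.lid_tmul, TensorProduct.lid_tmul, map_smul, smul_smul, pow_one]
  exact LinearMap.congr_fun key x

/-- The comparison of `W ⊗ K` with the tensor product. -/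
private theorem obj_compare (W : RepG k ℓ) (κ : GG k → ℤ_[ℓ])
    (hκ : ∀ g h, κ (g * h) = κ g + (cyc k ℓ g : ℤ_[ℓ]) * κ h) (hc : Continuous κ) :
    ∃ f : (Rep.of (W.ρ.tprod (Rep.of (kum 0 κ hκ hc).ρ : RepG k ℓ).ρ) : RepG k ℓ) →ₗ[ℚ_[ℓ]]
        kumRep W κ hκ, Function.Surjective f ∧
      ∀ g x, f ((Rep.of (W.ρ.tprod (Rep.of (kum 0 κ hκ hc).ρ : RepG k ℓ).ρ) : RepG k ℓ).ρ g x) =
        (kumRep W κ hκ).ρ g (f x) := by
  let F : W →ₗ[ℚ_[ℓ]] (ℚ_[ℓ] × ℚ_[ℓ]) →ₗ[ℚ_[ℓ]] (W × W) :=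
    LinearMap.mk₂ ℚ_[ℓ] (fun w a => (a.1 • w, a.2 • w))
      (fun w w' a => Prod.ext (smul_add _ _ _) (smul_add _ _ _))
      (fun c w a => Prod.ext (smul_comm _ _ _) (smul_comm _ _ _))
      (fun w a b => Prod.ext (add_smul _ _ _) (add_smul _ _ _))
      (fun c w a => Prod.ext (mul_smul _ _ _) (mul_smul _ _ _))
  let f : (W ⊗[ℚ_[ℓ]] (ℚ_[ℓ] × ℚ_[ℓ])) →ₗ[ℚ_[ℓ]] (W × W) := TensorProduct.lift F
  have hf : ∀ (w : W) (a : ℚ_[ℓ] × ℚ_[ℓ]), f (w ⊗ₜ a) = (a.1 • w, a.2 • w) := fun w a => rfl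
  refine ⟨f, ?_, ?_⟩
  · rintro ⟨w1, w2⟩
    refine ⟨w1 ⊗ₜ ((1, 0) : ℚ_[ℓ] × ℚ_[ℓ]) + w2 ⊗ₜ ((0, 1) : ℚ_[ℓ] × ℚ_[ℓ]), ?_⟩
    have h1 : f (w1 ⊗ₜ ((1, 0) : ℚ_[ℓ] × ℚ_[ℓ]) + w2 ⊗ₜ ((0, 1) : ℚ_[ℓ] × ℚ_[ℓ])) =
        f (w1 ⊗ₜ ((1, 0) : ℚ_[ℓ] × ℚ_[ℓ])) + f (w2 ⊗ₜ ((0, 1) : ℚ_[ℓ] × ℚ_[ℓ])) := map_add f _ _
    refine h1.trans ?_
    rw [hf, hf]
    apply Prod.ext
    · change (1 : ℚ_[ℓ]) • w1 + (0 : ℚ_[ℓ]) • w2 = w1
      rw [one_smul, zero_smul, add_zero]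
    · change (0 : ℚ_[ℓ]) • w1 + (1 : ℚ_[ℓ]) • w2 = w2
      rw [one_smul, zero_smul, zero_add]
  · intro g x
    let A : (ℚ_[ℓ] × ℚ_[ℓ]) →ₗ[ℚ_[ℓ]] (ℚ_[ℓ] × ℚ_[ℓ]) := (kum 0 κ hκ hc).ρ g
    have key : f ∘ₗ (TensorProduct.map (W.ρ g : W →ₗ[ℚ_[ℓ]] W) A) = kumRho W κ hκ g ∘ₗ f := by
      apply TensorProduct.ext'
      intro w a
      change f (W.ρ g w ⊗ₜ ((chi k ℓ g ^ (0 + 1) * a.1 + chi k ℓ g ^ 0 * (κ g : ℚ_[ℓ]) * a.2,
        chi k ℓ g ^ 0 * a.2) : ℚ_[ℓ] × ℚ_[ℓ])) =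
        ((chi k ℓ g • W.ρ g (a.1 • w) + (κ g : ℚ_[ℓ]) • W.ρ g (a.2 • w), W.ρ g (a.2 • w)) : W × W)
      rw [hf, map_smul, map_smul, smul_smul, smul_smul, ← add_smul, zero_add, pow_one, pow_zero,
        one_mul, one_mul]
    exact LinearMap.congr_fun key x

private theorem obj_mem {V : Type} [AddCommGroup V] [Module ℚ_[ℓ] V]
    (A : Module.End ℚ_[ℓ] V) (S : Submodule ℚ_[ℓ] V) (h : ∀ v ∈ S, A v ∈ S) (p : ℚ_[ℓ][X])
    (v : V) (hv : v ∈ S) : aeval A p v ∈ S := by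
  have hpow : ∀ (n : ℕ) (v : V), v ∈ S → (A ^ n) v ∈ S := by
    intro n
    induction n with
    | zero => intro v hv; simpa using hv
    | succ n ih =>
      intro v hv
      rw [pow_succ, Module.End.mul_apply]
      exact ih _ (h _ hv)
  induction p using Polynomial.induction_on' with
  | add p q hp hq => rw [map_add, LinearMap.add_apply]; exact S.add_mem hp hq
  | monomial n a =>
    rw [aeval_monomial, Module.End.mul_apply, Module.algebraMap_end_apply]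
    exact S.smul_mem _ (hpow n v hv)

private theorem obj_intertwine {V W : Type} [AddCommGroup V] [Module ℚ_[ℓ] V] [AddCommGroup W]
    [Module ℚ_[ℓ] W] (f : V →ₗ[ℚ_[ℓ]] W) (A : Module.End ℚ_[ℓ] V) (B : Module.End ℚ_[ℓ] W)
    (h : ∀ v, f (A v) = B (f v)) (p : ℚ_[ℓ][X]) (v : V) :
    f (aeval A p v) = aeval B p (f v) := by
  have hpow : ∀ (n : ℕ) (v : V), f ((A ^ n) v) = (B ^ n) (f v) := by
    intro n
    induction n with
    | zero => intro v; simp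
    | succ n ih =>
      intro v
      rw [pow_succ, pow_succ, Module.End.mul_apply, Module.End.mul_apply, ih, h]
  induction p using Polynomial.induction_on' with
  | add p q hp hq => rw [map_add, map_add, LinearMap.add_apply, LinearMap.add_apply, map_add, hp, hq]
  | monomial n a =>
    rw [aeval_monomial, aeval_monomial, Module.End.mul_apply, Module.End.mul_apply,
      Module.algebraMap_end_apply, Module.algebraMap_end_apply, map_smul, hpow]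

/-- The twisted polynomial. -/
private theorem obj_twist {q : ℕ} (hq : q ≠ 0) (p : ℚ_[ℓ][X]) (hp : p ≠ 0) (m : ℤ)
    (h : ∀ μ : AlgebraicClosure ℚ_[ℓ], aeval μ p = 0 → IsWeil q (m + 2) μ) :
    ∃ r : ℚ_[ℓ][X], r ≠ 0 ∧ (∀ μ : AlgebraicClosure ℚ_[ℓ], aeval μ r = 0 → IsWeil q m μ) ∧
      ∀ (M : Type) [AddCommGroup M] [Module ℚ_[ℓ] M] (A : Module.End ℚ_[ℓ] M),
        aeval (((q : ℚ_[ℓ])⁻¹) • A) r = aeval A p := by
  have hq0 : (q : ℚ_[ℓ]) ≠ 0 := Nat.cast_ne_zero.mpr hq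
  refine ⟨p.comp (C (q : ℚ_[ℓ]) * X), ?_, ?_, ?_⟩
  · rw [Ne, comp_C_mul_X_eq_zero_iff (mem_nonZeroDivisors_of_ne_zero hq0)]
    exact hp
  · intro μ hμ
    rw [aeval_comp, map_mul, aeval_C, aeval_X, map_natCast] at hμ
    have h1 := h _ hμ
    have h2 : IsWeil q (-2) (((q : AlgebraicClosure ℚ_[ℓ]))⁻¹) := by
      have h6 : ((q : AlgebraicClosure ℚ_[ℓ]))⁻¹ =
          algebraMap ℚ (AlgebraicClosure ℚ_[ℓ]) ((q : ℚ)⁻¹) := by simp
      refine ⟨h6 ▸ isAlgebraic_algebraMap _, ?_⟩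
      intro z hz
      rw [h6, minpoly.eq_X_sub_C, map_sub, aeval_X, aeval_C, sub_eq_zero] at hz
      rw [hz]
      have h9 : (0 : ℝ) < q := by exact_mod_cast Nat.pos_of_ne_zero hq
      push_cast
      rw [norm_inv, Complex.norm_natCast]
      have h10 : (-2 : ℝ) / 2 = -1 := by norm_num
      rw [h10, Real.rpow_neg h9.le, Real.rpow_one]
    have h3 := isWeil_mul hq h1 h2
    have hqK : (q : AlgebraicClosure ℚ_[ℓ]) ≠ 0 := Nat.cast_ne_zero.mpr hq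
    have h4 : (q : AlgebraicClosure ℚ_[ℓ]) * μ * ((q : AlgebraicClosure ℚ_[ℓ]))⁻¹ = μ := by
      field_simp
    rw [h4] at h3
    have h5 : m + 2 + -2 = m := by ring
    rwa [h5] at h3
  · intro M _ _ A
    have h1 : algebraMap ℚ_[ℓ] (Module.End ℚ_[ℓ] M) (q : ℚ_[ℓ]) * (((q : ℚ_[ℓ])⁻¹) • A) = A := by
      apply LinearMap.ext
      intro v
      rw [Module.End.mul_apply, Module.algebraMap_end_apply, LinearMap.smul_apply, smul_smul,
        mul_inv_cancel₀ hq0, one_smul]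
    rw [aeval_comp, map_mul, aeval_C, aeval_X, h1]

/-- `W ⊗ K` is mixed: the filtration is `W_{m+2} × W_m`. -/
private theorem obj_mixed {W : RepG k ℓ} {N : ℕ} {S : ℤ → Submodule ℚ_[ℓ] W}
    (hW : MixedP W N S) (κ : GG k → ℤ_[ℓ])
    (hκ : ∀ g h, κ (g * h) = κ g + (cyc k ℓ g : ℤ_[ℓ]) * κ h) :
    ∃ S' : ℤ → Submodule ℚ_[ℓ] (kumRep W κ hκ), MixedP (kumRep W κ hκ) (N * ℓ) S' := by
  obtain ⟨hmono, ⟨a, ha⟩, ⟨b, hb⟩, hst, h5⟩ := hW
  have hle : ∀ {m n : ℤ}, m ≤ n → S m ≤ S n := fun h => hmono h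
  refine ⟨fun m => ((S (m + 2)).prod (S m) : Submodule ℚ_[ℓ] (W × W)), ?_, ⟨a - 2, ?_⟩, ⟨b, ?_⟩,
    ?_, ?_⟩
  · intro m n hmn
    exact Submodule.prod_mono (hle (by omega)) (hle hmn)
  · change ((S (a - 2 + 2)).prod (S (a - 2)) : Submodule ℚ_[ℓ] (W × W)) = ⊥
    have h1 : S (a - 2) = ⊥ := le_bot_iff.mp (ha ▸ hle (by omega))
    rw [show a - 2 + 2 = a by ring, ha, h1, Submodule.prod_bot]
  · change ((S (b + 2)).prod (S b) : Submodule ℚ_[ℓ] (W × W)) = ⊤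
    have h1 : S (b + 2) = ⊤ := top_le_iff.mp (hb ▸ hle (by omega))
    rw [hb, h1, Submodule.prod_top]
  · intro m g (v : W × W) hv
    obtain ⟨hv1, hv2⟩ := Submodule.mem_prod.mp hv
    change ((chi k ℓ g • W.ρ g v.1 + (κ g : ℚ_[ℓ]) • W.ρ g v.2, W.ρ g v.2) : W × W) ∈
      (S (m + 2)).prod (S m)
    refine Submodule.mem_prod.mpr ⟨?_, hst m g _ hv2⟩
    exact Submodule.add_mem _ (Submodule.smul_mem _ _ (hst _ g _ hv1))
      (Submodule.smul_mem _ _ (hle (by omega) (hst m g _ hv2)))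
  · intro 𝔓 hmax hN σ hσ m
    have hprime := hmax.isPrime
    rw [Nat.cast_mul] at hN
    have hN' : (N : Zb k) ∉ 𝔓 := fun h => hN (𝔓.mul_mem_right _ h)
    have hℓ : (ℓ : Zb k) ∉ 𝔓 := fun h => hN (𝔓.mul_mem_left _ h)
    have hq : nrm 𝔓 ≠ 0 := by
      intro h0
      rw [h0] at hσ
      have h1 := hσ 0 0 (by simp)
      rw [pow_zero, zero_sub, neg_mem_iff] at h1
      exact hmax.ne_top ((Ideal.eq_top_iff_one _).mpr h1)
    have hchi : chi k ℓ σ⁻¹ = ((nrm 𝔓 : ℕ) : ℚ_[ℓ])⁻¹ := by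
      have h4 : chi k ℓ σ * chi k ℓ σ⁻¹ = 1 := by rw [← chi_mul, mul_inv_cancel, chi_one]
      have h6 : chi k ℓ σ = (nrm 𝔓 : ℕ) := by
        rw [chi, cyc_of_frobAt hmax hℓ hσ]
        simp
      rw [h6] at h4
      exact eq_inv_of_mul_eq_one_right h4
    obtain ⟨p, hp0, hpW, hp⟩ := h5 𝔓 hmax hN' σ hσ m
    obtain ⟨p', hp0', hpW', hp'⟩ := h5 𝔓 hmax hN' σ hσ (m + 2)
    obtain ⟨r, hr0, hrW, hr⟩ := obj_twist hq p' hp0' m hpW'
    -- the operator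
    let R : Module.End ℚ_[ℓ] (W × W) := kumRho W κ hκ σ⁻¹
    have hR : ∀ v : W × W, R v = (chi k ℓ σ⁻¹ • W.ρ σ⁻¹ v.1 + (κ σ⁻¹ : ℚ_[ℓ]) • W.ρ σ⁻¹ v.2,
      W.ρ σ⁻¹ v.2) := fun v => rfl
    have hRst : ∀ m n : ℤ, n ≤ m → ∀ v ∈ ((S m).prod (S n) : Submodule ℚ_[ℓ] (W × W)),
        R v ∈ ((S m).prod (S n) : Submodule ℚ_[ℓ] (W × W)) := by
      intro m n hnm v hv
      obtain ⟨hv1, hv2⟩ := Submodule.mem_prod.mp hv
      rw [hR]
      refine Submodule.mem_prod.mpr ⟨?_, hst n _ _ hv2⟩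
      exact Submodule.add_mem _ (Submodule.smul_mem _ _ (hst _ _ _ hv1))
        (Submodule.smul_mem _ _ (hle hnm (hst n _ _ hv2)))
    refine ⟨r * p, mul_ne_zero hr0 hp0, ?_, ?_⟩
    · intro μ hμ
      rw [map_mul, mul_eq_zero] at hμ
      rcases hμ with h | h
      · exact hrW μ h
      · exact hpW μ h
    · intro (v : W × W) hv
      change aeval R (r * p) v ∈ ((S (m - 1 + 2)).prod (S (m - 1)) : Submodule ℚ_[ℓ] (W × W))
      rw [map_mul, Module.End.mul_apply]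
      have hv1 : aeval R p v ∈ ((S (m + 2)).prod (S (m - 1)) : Submodule ℚ_[ℓ] (W × W)) := by
        refine Submodule.mem_prod.mpr ⟨?_, ?_⟩
        · exact (Submodule.mem_prod.mp (obj_mem R _ (hRst (m + 2) m (by omega)) p v hv)).1
        · have h7 := obj_intertwine (LinearMap.snd ℚ_[ℓ] W W) R (W.ρ σ⁻¹) (fun v => rfl) p v
          have h8 : (aeval R p v).2 = aeval (W.ρ σ⁻¹) p v.2 := h7
          rw [h8]
          exact hp _ (Submodule.mem_prod.mp hv).2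
      generalize aeval R p v = u at hv1
      obtain ⟨hu1, hu2⟩ := Submodule.mem_prod.mp hv1
      have hdec : u = ((u.1, 0) : W × W) + ((0, u.2) : W × W) := by
        apply Prod.ext
        · exact (add_zero _).symm
        · exact (zero_add _).symm
      rw [hdec, map_add]
      refine Submodule.add_mem _ ?_ ?_
      · have h7 := obj_intertwine (LinearMap.inl ℚ_[ℓ] W W)
          (((nrm 𝔓 : ℕ) : ℚ_[ℓ])⁻¹ • W.ρ σ⁻¹) R (fun w => by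
            rw [hR]
            apply Prod.ext
            · change ((nrm 𝔓 : ℕ) : ℚ_[ℓ])⁻¹ • W.ρ σ⁻¹ w = chi k ℓ σ⁻¹ • W.ρ σ⁻¹ w +
                (κ σ⁻¹ : ℚ_[ℓ]) • W.ρ σ⁻¹ 0
              rw [hchi, map_zero, smul_zero, add_zero]
            · change (0 : W) = W.ρ σ⁻¹ 0
              rw [map_zero]) r u.1
        have h8 : aeval R r ((u.1, 0) : W × W) =
            ((aeval (((nrm 𝔓 : ℕ) : ℚ_[ℓ])⁻¹ • W.ρ σ⁻¹) r u.1, 0) : W × W) := h7.symm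
        rw [h8, hr]
        refine Submodule.mem_prod.mpr ⟨?_, Submodule.zero_mem _⟩
        have h9 := hp' _ hu1
        have h10 : m + 2 - 1 = m - 1 + 2 := by ring
        rwa [h10] at h9
      · have h7 := obj_mem R _ (hRst (m - 1) (m - 1) le_rfl) r ((0, u.2) : W × W)
          (Submodule.mem_prod.mpr ⟨Submodule.zero_mem _, hu2⟩)
        exact Submodule.prod_mono (hle (by omega)) le_rfl h7

/-- `W ⊗ K` is in the category. -/
theorem kumRep_inC {W : RepG k ℓ} (hW : InC k ℓ W) (κ : GG k → ℤ_[ℓ])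
    (hκ : ∀ g h, κ (g * h) = κ g + (cyc k ℓ g : ℤ_[ℓ]) * κ h) (hc : Continuous κ)
    (hK : InC k ℓ (Rep.of (kum 0 κ hκ hc).ρ)) : InC k ℓ (kumRep W κ hκ) := by
  have hℓ : ℓ.Prime := Fact.out
  obtain ⟨f, hf1, hf2⟩ := obj_compare W κ hκ hc
  obtain ⟨h1, h2, ⟨N, hN0, hN⟩, h4, h5⟩ := hW
  obtain ⟨h1', h2', ⟨N', hN0', hN'⟩, h4', h5'⟩ := hK
  have := h1
  have := h1'
  have g1 : FiniteDimensional ℚ_[ℓ] (kumRep W κ hκ) := by
    change FiniteDimensional ℚ_[ℓ] (W × W)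
    infer_instance
  have g3 : ∃ N : ℕ, N ≠ 0 ∧ UnramOutside (kumRep W κ hκ) N :=
    ⟨N * N', mul_ne_zero hN0 hN0', unram_of_surjective f hf2 hf1
      (unram_tprod (hN.congr_N (Dvd.intro _ rfl)) (hN'.congr_N (Dvd.intro_left _ rfl)))⟩
  refine ⟨g1, isCont_of_surjective f hf2 hf1 (isCont_tprod h2 h2'), g3, ?_, ?_⟩
  · rw [isMixed_iff _ g1 g3]
    obtain ⟨M, S, hM0, hS⟩ := (isMixed_iff W h1 ⟨N, hN0, hN⟩).1 h4
    obtain ⟨S', hS'⟩ := obj_mixed hS κ hκ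
    exact ⟨M * ℓ, S', mul_ne_zero hM0 hℓ.ne_zero, hS'⟩
  · rw [isPst_iff] at h5 h5' ⊢
    intro ι
    obtain ⟨L, hL1, hL2, hL3⟩ := h5 ι
    obtain ⟨L', hL1', hL2', hL3'⟩ := h5' ι
    have := hL1
    have := hL1'
    refine ⟨L ⊔ L', ?_, fun x => ?_, ?_⟩
    · exact IntermediateField.finiteDimensional_sup L L'
    · exact (le_sup_left : L ≤ L ⊔ L') (hL2 x)
    · exact pstAt_of_surjective f hf2 hf1
        (pstAt_tprod (pstAt_mono le_sup_left hL3) (pstAt_mono le_sup_right hL3'))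

end Pool.Agent.EXK
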