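import Mathlib
import Pool.Agent.FRC.FRB3
import Pool.Agent.FRC.FRB1

open CategoryTheory Polynomial NumberField
open scoped Pointwise

namespace Pool.Agent.EXK

open Pool.Agent.H12 Pool.Agent.FRC

variable {k : Type} [Field k] [NumberField k]

private theorem il_coe_smul (g : GG k) (b : Zb k) :
    ((g • b : Zb k) : AlgebraicClosure k) = g (b : AlgebraicClosure k) := rfl

private theorem il_coe_smul' (H : Subgroup (GG k)) (g : H) (b : Zb k) :
    ((g • b : Zb k) : AlgebraicClosure k) = (g : GG k) (b : AlgebraicClosure k) := rfl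

private theorem il_inv (K : IntermediateField k (AlgebraicClosure k)) :
    Algebra.IsInvariant (𝓞 K) (Zb k) K.fixingSubgroup := by
  constructor
  intro b hb
  have h1 : (b : AlgebraicClosure k) ∈ IntermediateField.fixedField K.fixingSubgroup := by
    rw [IntermediateField.mem_fixedField_iff]
    intro g hg
    rw [← il_coe_smul' K.fixingSubgroup ⟨g, hg⟩, hb ⟨g, hg⟩]
  rw [InfiniteGalois.fixedField_fixingSubgroup] at h1
  have h3 : IsIntegral ℤ (⟨b, h1⟩ : K) := by
    rw [← isIntegral_algebraMap_iff (B := AlgebraicClosure k)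
      (algebraMap K (AlgebraicClosure k)).injective]
    exact RingOfIntegers.isIntegral_coe b
  refine ⟨⟨⟨b, h1⟩, h3⟩, ?_⟩
  apply RingOfIntegers.ext
  rfl

private theorem il_comm (K : IntermediateField k (AlgebraicClosure k)) :
    SMulCommClass K.fixingSubgroup (𝓞 K) (Zb k) := by
  constructor
  intro g a b
  apply RingOfIntegers.ext
  rw [il_coe_smul', Algebra.smul_def, Algebra.smul_def]
  have e1 : ((algebraMap (𝓞 K) (Zb k) a * b : Zb k) : AlgebraicClosure k) =
    ((a : K) : AlgebraicClosure k) * (b : AlgebraicClosure k) := rfl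
  have e2 : ((algebraMap (𝓞 K) (Zb k) a * (g • b) : Zb k) : AlgebraicClosure k) =
    ((a : K) : AlgebraicClosure k) * (g : GG k) (b : AlgebraicClosure k) := rfl
  rw [e1, e2, map_mul]
  congr 1
  exact g.2 (a : K)

private theorem il_cont (H : Subgroup (GG k)) [TopologicalSpace (Zb k)]
    [DiscreteTopology (Zb k)] : ContinuousSMul H (Zb k) := by
  rw [continuousSMul_iff_stabilizer_isOpen]
  intro x
  have h1 := stabilizer_isOpen_of_isIntegral (K := k) (x : AlgebraicClosure k)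
  have h2 : (MulAction.stabilizer H x : Set H) = (fun h : H => (h : GG k)) ⁻¹'
      (MulAction.stabilizer (GG k) (x : AlgebraicClosure k) : Set (GG k)) := by
    ext g
    simp only [SetLike.mem_coe, MulAction.mem_stabilizer_iff, Set.mem_preimage]
    constructor
    · intro h
      have := congrArg (fun z : Zb k => (z : AlgebraicClosure k)) h
      exact this
    · intro h
      apply RingOfIntegers.ext
      exact h
  rw [h2]
  exact h1.preimage continuous_subtype_val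

/-- Every element of the inertia group of a finite normal extension `K` of `k` lifts to an
element of the inertia group of the algebraic closure. -/
theorem exists_inertia_lift {𝔓 : Ideal (Zb k)} (h𝔓 : 𝔓.IsMaximal)
    (K : IntermediateField k (AlgebraicClosure k)) [FiniteDimensional k K] [Normal k K]
    (s : K ≃ₐ[k] K)
    (hs : ∀ y z : 𝓞 K, (z : K) = s (y : K) → algebraMap (𝓞 K) (Zb k) (z - y) ∈ 𝔓) :
    ∃ σ : GG k, FrobAt 𝔓 1 σ ∧ ∀ x : K, σ (x : AlgebraicClosure k) = (s x : AlgebraicClosure k) := by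
  have hinv := il_inv K
  have hcomm := il_comm K
  let _ : TopologicalSpace (Zb k) := ⊥
  have hdisc : DiscreteTopology (Zb k) := ⟨rfl⟩
  have hcs : ContinuousSMul K.fixingSubgroup (Zb k) := il_cont _
  have hcl : IsClosed (K.fixingSubgroup : Set (GG k)) := IntermediateField.fixingSubgroup_isClosed K
  have hcomp : CompactSpace K.fixingSubgroup := isCompact_iff_compactSpace.mp hcl.isCompact
  have hprime : 𝔓.IsPrime := h𝔓.isPrime
  -- the lift of `s`
  set σ₀ : GG k := s.liftNormal (AlgebraicClosure k) with hσ₀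
  have hσ₀K : ∀ x : K, σ₀ (x : AlgebraicClosure k) = (s x : AlgebraicClosure k) := fun x =>
    AlgEquiv.liftNormal_commutes s (AlgebraicClosure k) x
  have hsz : ∀ y : 𝓞 K, ∃ z : 𝓞 K, (z : K) = s (y : K) := fun y =>
    ⟨⟨s (y : K), (RingOfIntegers.isIntegral_coe y).map (s.toAlgHom.restrictScalars ℤ)⟩, rfl⟩
  have hsy : ∀ y : 𝓞 K, ∃ z : 𝓞 K, (y : K) = s (z : K) := fun y =>
    ⟨⟨s.symm (y : K), (RingOfIntegers.isIntegral_coe y).map (s.symm.toAlgHom.restrictScalars ℤ)⟩,
      (s.apply_symm_apply _).symm⟩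
  have hsmul : ∀ y z : 𝓞 K, (z : K) = s (y : K) →
      σ₀ • algebraMap (𝓞 K) (Zb k) y = algebraMap (𝓞 K) (Zb k) z := by
    intro y z hz
    apply RingOfIntegers.ext
    rw [il_coe_smul]
    change σ₀ ((y : K) : AlgebraicClosure k) = ((z : K) : AlgebraicClosure k)
    rw [hσ₀K, hz]
  have hP'prime : (σ₀ • 𝔓).IsPrime := by
    have := hprime
    infer_instance
  -- the two primes have the same contraction
  have hunder : (σ₀ • 𝔓).under (𝓞 K) = 𝔓.under (𝓞 K) := by
    ext y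
    rw [Ideal.mem_comap, Ideal.mem_comap]
    obtain ⟨z, hz⟩ := hsy y
    have h1 : algebraMap (𝓞 K) (Zb k) y ∈ σ₀ • 𝔓 ↔ algebraMap (𝓞 K) (Zb k) z ∈ 𝔓 := by
      rw [← hsmul z y hz, Ideal.smul_mem_pointwise_smul_iff]
    have h2 := hs z y hz
    rw [map_sub] at h2
    rw [h1]
    constructor
    · intro h3
      have := 𝔓.add_mem h2 h3
      rwa [sub_add_cancel] at this
    · intro h3
      have := 𝔓.sub_mem h3 h2
      rwa [sub_sub_cancel] at this
  obtain ⟨τ, hτ⟩ := Algebra.IsInvariant.exists_smul_of_under_eq_of_profinite (A := 𝓞 K)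
    (G := K.fixingSubgroup) (σ₀ • 𝔓) 𝔓 hunder
  set σ₁ : GG k := (τ : GG k) * σ₀ with hσ₁
  have hσ₁𝔓 : σ₁ • 𝔓 = 𝔓 := by
    rw [hσ₁, mul_smul]
    exact hτ.symm
  have hσ₁K : ∀ x : K, σ₁ (x : AlgebraicClosure k) = (s x : AlgebraicClosure k) := by
    intro x
    rw [hσ₁, AlgEquiv.mul_apply, hσ₀K]
    exact τ.2 (s x)
  -- the automorphism of the residue field
  set P : Ideal (𝓞 K) := 𝔓.under (𝓞 K) with hP
  have hlies : 𝔓.LiesOver P := ⟨rfl⟩
  let e : (Zb k ⧸ 𝔓) ≃+* (Zb k ⧸ 𝔓) := Ideal.quotientEquiv 𝔓 𝔓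
    (MulSemiringAction.toRingEquiv (GG k) (Zb k) σ₁) hσ₁𝔓.symm
  have he : ∀ y : Zb k, e (Ideal.Quotient.mk 𝔓 y) = Ideal.Quotient.mk 𝔓 (σ₁ • y) := fun y => rfl
  let E : (Zb k ⧸ 𝔓) ≃ₐ[𝓞 K ⧸ P] (Zb k ⧸ 𝔓) := AlgEquiv.ofRingEquiv (f := e) (by
    intro r
    obtain ⟨y, rfl⟩ := Ideal.Quotient.mk_surjective r
    obtain ⟨z, hz⟩ := hsz y
    change e (Ideal.Quotient.mk 𝔓 (algebraMap (𝓞 K) (Zb k) y)) =
      Ideal.Quotient.mk 𝔓 (algebraMap (𝓞 K) (Zb k) y)
    rw [he, Ideal.Quotient.eq]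
    have h1 : σ₁ • algebraMap (𝓞 K) (Zb k) y = algebraMap (𝓞 K) (Zb k) z := by
      apply RingOfIntegers.ext
      rw [il_coe_smul]
      change σ₁ ((y : K) : AlgebraicClosure k) = ((z : K) : AlgebraicClosure k)
      rw [hσ₁K, hz]
    rw [h1, ← map_sub]
    exact hs y z hz)
  obtain ⟨⟨τ', hτ'⟩, hE⟩ := Ideal.Quotient.stabilizerHom_surjective_of_profinite
    (G := K.fixingSubgroup) P 𝔓 E
  have hE' : ∀ y : Zb k, (τ' : GG k) • y - σ₁ • y ∈ 𝔓 := by
    intro y
    have h1 := DFunLike.congr_fun hE (Ideal.Quotient.mk 𝔓 y)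
    rw [← Ideal.Quotient.eq]
    exact h1
  refine ⟨(τ' : GG k)⁻¹ * σ₁, ?_, ?_⟩
  · intro y z hz
    rw [pow_one]
    have hzy : z = ((τ' : GG k)⁻¹ * σ₁) • y := RingOfIntegers.ext hz
    have h1 : (τ' : GG k) • (z - y) ∈ 𝔓 := by
      rw [smul_sub, hzy, ← mul_smul, mul_inv_cancel_left, ← neg_sub, neg_mem_iff]
      exact hE' y
    have h2 : (τ' : GG k) • 𝔓 = 𝔓 := hτ'
    rw [← h2, Ideal.smul_mem_pointwise_smul_iff] at h1
    exact h1
  · intro x
    rw [AlgEquiv.mul_apply, hσ₁K]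
    exact (τ'⁻¹).2 (s x)

end Pool.Agent.EXK
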