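import Mathlib
import Pool.Agent.EXK.IL

open CategoryTheory Polynomial NumberField
open scoped Pointwise

namespace Pool.Agent.EXK

open Pool.Agent.H12 Pool.Agent.FRC

variable {k : Type} [Field k] [NumberField k]

/-- If the inertia group of `𝔓` fixes the finite normal extension `K`, then `K` is unramified
at `𝔓`. -/
theorem ramificationIdx_eq_one {𝔓 : Ideal (Zb k)} (h𝔓 : 𝔓.IsMaximal)
    (K : IntermediateField k (AlgebraicClosure k)) [FiniteDimensional k K] [Normal k K]
    (h : ∀ σ : GG k, FrobAt 𝔓 1 σ → ∀ x : K, σ (x : AlgebraicClosure k) = x) :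
    ((𝔓.comap (algebraMap (𝓞 k) (Zb k))).ramificationIdx'
      (𝔓.comap (algebraMap (𝓞 K) (Zb k)))) = 1 := by
  have hprime : 𝔓.IsPrime := h𝔓.isPrime
  have hNF : NumberField K := NumberField.of_module_finite k K
  have hgal : IsGalois k K := ⟨⟩
  set P : Ideal (𝓞 K) := 𝔓.comap (algebraMap (𝓞 K) (Zb k)) with hP
  set p : Ideal (𝓞 k) := 𝔓.comap (algebraMap (𝓞 k) (Zb k)) with hp
  have hint : Algebra.IsIntegral (𝓞 k) (Zb k) := Algebra.IsIntegral.tower_top ℤ
  have hpm : p.IsMaximal := Ideal.isMaximal_comap_of_isIntegral_of_isMaximal 𝔓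
  have hpbot : p ≠ ⊥ := Ring.ne_bot_of_isMaximal_of_not_isField hpm (RingOfIntegers.not_isField k)
  have hlies : P.LiesOver p := by
    constructor
    rw [hp, hP, Ideal.under_def, Ideal.comap_comap]
    rfl
  have hPp : P.IsPrime := Ideal.IsPrime.comap _
  have hpp : p.IsPrime := Ideal.IsPrime.comap _
  have h1 := Ideal.card_inertia_eq_ramificationIdxIn (R := 𝓞 k) (S := 𝓞 K) (G := Gal(K/k)) p P
  have h2 : P.inertia Gal(K/k) = ⊥ := by
    rw [eq_bot_iff]
    intro s hs
    rw [Subgroup.mem_bot]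
    have hs' : ∀ x : 𝓞 K, s • x - x ∈ P := hs
    obtain ⟨σ, hσ1, hσ2⟩ := exists_inertia_lift h𝔓 K s (fun y z hz => by
      have h3 : z = s • y := RingOfIntegers.ext hz
      rw [h3]
      exact hs' y)
    apply AlgEquiv.ext
    intro x
    apply Subtype.ext
    rw [← hσ2 x, h σ hσ1 x]
    rfl
  rw [h2, Subgroup.card_bot, Ideal.ramificationIdxIn_eq_ramificationIdx p P Gal(K/k)] at h1
  rw [Ideal.ramificationIdx'_eq_ramificationIdx p P hpbot]
  exact h1.symm

end Pool.Agent.EXK
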