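import Mathlib
import Pool.Agent.EXK.RM
import Pool.Agent.EXK.KJ
import Pool.Agent.FRC.FRB2

open CategoryTheory Polynomial NumberField
open scoped Pointwise

namespace Pool.Agent.EXK

open Pool.Agent.H12 Pool.Agent.FRC

variable {k : Type} [Field k] [NumberField k]

/-- The exponent of the valuation of a nonzero element. -/
private theorem rc_exp {R : Type} [CommRing R] [IsDedekindDomain R]
    (v : IsDedekindDomain.HeightOneSpectrum R) (x : R) (hx : x ≠ 0) :
    ∃ a : ℕ, v.intValuation x = WithZero.exp (-(a : ℤ)) :=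
  ⟨_, v.intValuation_if_neg hx⟩

/-- There is a bound for the exponents `N` such that a number `A`, the product of `p ^ c` and an
element prime to `𝔓`, is an `N`-th power in a field that is unramified at `𝔓`. -/
theorem exists_bound {𝔓 : Ideal (Zb k)} (h𝔓 : 𝔓.IsMaximal) (p : ℕ) (hp0 : p ≠ 0)
    (hp : (p : Zb k) ∈ 𝔓) (c : ℕ) (hc : 0 < c) :
    ∃ M : ℕ, ∀ (K : IntermediateField k (AlgebraicClosure k)) [FiniteDimensional k K]
      [Normal k K], (∀ σ : GG k, FrobAt 𝔓 1 σ → ∀ x : K, σ (x : AlgebraicClosure k) = x) →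
      ∀ (s N : ℕ), (s : Zb k) ∉ 𝔓 → ∀ x ∈ K, x ^ N = ((p ^ c * s : ℕ) : AlgebraicClosure k) →
        N ≤ M := by
  have hprime : 𝔓.IsPrime := h𝔓.isPrime
  set p' : Ideal (𝓞 k) := 𝔓.comap (algebraMap (𝓞 k) (Zb k)) with hp'
  have hint : Algebra.IsIntegral (𝓞 k) (Zb k) := Algebra.IsIntegral.tower_top ℤ
  have hpm : p'.IsMaximal := Ideal.isMaximal_comap_of_isIntegral_of_isMaximal 𝔓
  have hpbot : p' ≠ ⊥ := Ring.ne_bot_of_isMaximal_of_not_isField hpm (RingOfIntegers.not_isField k)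
  let v : IsDedekindDomain.HeightOneSpectrum (𝓞 k) := ⟨p', hpm.isPrime, hpbot⟩
  have hpk0 : (p : 𝓞 k) ≠ 0 := Nat.cast_ne_zero.mpr hp0
  obtain ⟨a, ha⟩ := rc_exp v (p : 𝓞 k) hpk0
  have hpmem : (p : 𝓞 k) ∈ p' := by
    rw [hp', Ideal.mem_comap, map_natCast]
    exact hp
  have ha0 : 0 < a := by
    have h1 : v.intValuation (p : 𝓞 k) < 1 := (v.intValuation_lt_one_iff_mem _).mpr hpmem
    rw [ha, ← WithZero.exp_zero, WithZero.exp_lt_exp] at h1
    omega
  refine ⟨a * c, ?_⟩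
  intro K hK1 hK2 hfix s N hs x hxK hx
  have hNF : NumberField K := NumberField.of_module_finite k K
  set P : Ideal (𝓞 K) := 𝔓.comap (algebraMap (𝓞 K) (Zb k)) with hP
  have hram := ramificationIdx_eq_one h𝔓 K hfix
  have hintK : Algebra.IsIntegral (𝓞 K) (Zb k) := Algebra.IsIntegral.tower_top ℤ
  have hPm : P.IsMaximal := Ideal.isMaximal_comap_of_isIntegral_of_isMaximal 𝔓
  have hPbot : P ≠ ⊥ := Ring.ne_bot_of_isMaximal_of_not_isField hPm (RingOfIntegers.not_isField K)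
  let w : IsDedekindDomain.HeightOneSpectrum (𝓞 K) := ⟨P, hPm.isPrime, hPbot⟩
  have hlies : w.asIdeal.LiesOver v.asIdeal := by
    constructor
    change p' = P.under (𝓞 k)
    rw [hp', hP, Ideal.under_def, Ideal.comap_comap]
    rfl
  have h1 := IsDedekindDomain.HeightOneSpectrum.intValuation_liesOver v w
    (((p ^ c * s : ℕ)) : 𝓞 k)
  have hram' : v.asIdeal.ramificationIdx' w.asIdeal = 1 := hram
  have hcast : algebraMap (𝓞 k) (𝓞 K) ((p ^ c * s : ℕ) : 𝓞 k) = ((p ^ c * s : ℕ) : 𝓞 K) :=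
    map_natCast _ _
  rw [hram', pow_one, hcast] at h1
  have hs0 : s ≠ 0 := by
    rintro rfl
    apply hs
    rw [Nat.cast_zero]
    exact 𝔓.zero_mem
  have hps0 : p ^ c * s ≠ 0 := Nat.mul_ne_zero (pow_ne_zero _ hp0) hs0
  have hN0 : N ≠ 0 ∨ N = 0 := (eq_or_ne N 0).symm
  rcases hN0 with hN0 | hN0
  swap
  · rw [hN0]; exact Nat.zero_le _
  -- the integral element
  have hxint : IsIntegral ℤ (⟨x, hxK⟩ : K) := by
    refine IsIntegral.of_pow (Nat.pos_of_ne_zero hN0) ?_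
    have h2 : (⟨x, hxK⟩ : K) ^ N = (((p ^ c * s : ℕ) : ℤ) : K) := by
      apply Subtype.ext
      push_cast
      push_cast at hx
      exact hx
    rw [h2]
    exact isIntegral_algebraMap (R := ℤ) (x := ((p ^ c * s : ℕ) : ℤ))
  let y : 𝓞 K := ⟨⟨x, hxK⟩, hxint⟩
  have hy : y ^ N = ((p ^ c * s : ℕ) : 𝓞 K) := by
    apply RingOfIntegers.ext
    apply Subtype.ext
    push_cast
    push_cast at hx
    exact hx
  have hy0 : y ≠ 0 := by
    intro h
    rw [h, zero_pow hN0] at hy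
    exact Nat.cast_ne_zero.mpr hps0 hy.symm
  obtain ⟨b, hb⟩ := rc_exp w y hy0
  have hsv : v.intValuation (s : 𝓞 k) = 1 := by
    apply le_antisymm (v.intValuation_le_one _)
    by_contra hlt
    rw [not_le] at hlt
    have h2 : (s : 𝓞 k) ∈ p' := (v.intValuation_lt_one_iff_mem _).mp hlt
    rw [hp', Ideal.mem_comap, map_natCast] at h2
    exact hs h2
  rw [← hy, map_pow, hb, Nat.cast_mul, Nat.cast_pow, map_mul, map_pow, hsv, mul_one, ha,
    ← WithZero.exp_nsmul, ← WithZero.exp_nsmul, WithZero.exp_inj, nsmul_eq_mul, nsmul_eq_mul,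
    mul_neg, mul_neg, neg_inj] at h1
  have h2 : c * a = N * b := by exact_mod_cast h1
  have hb0 : 0 < b := by
    rcases Nat.eq_zero_or_pos b with h | h
    · rw [h, mul_zero] at h2
      have := Nat.mul_pos hc ha0
      omega
    · exact h
  calc N = N * 1 := (mul_one N).symm
    _ ≤ N * b := Nat.mul_le_mul_left _ hb0
    _ = a * c := by rw [← h2, mul_comm]

/-- For every prime `p ≠ ℓ` there is an extension of `ℚ_ℓ` by `ℚ_ℓ(1)` in the category that is
ramified at every place above `p`. -/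
theorem exists_ramified_class (k : Type) [Field k] [NumberField k] (ℓ : ℕ) [Fact ℓ.Prime] (p : ℕ)
    (hp : p.Prime) (hpℓ : p ≠ ℓ) :
    ∃ (κ : GG k → ℤ_[ℓ]) (hκ : ∀ g h, κ (g * h) = κ g + (cyc k ℓ g : ℤ_[ℓ]) * κ h)
      (hc : Continuous κ), InC k ℓ (Rep.of (kum 0 κ hκ hc).ρ) ∧
      ∀ 𝔓 : Ideal (Zb k), 𝔓.IsMaximal → (p : Zb k) ∈ 𝔓 → ∃ σ : GG k, FrobAt 𝔓 1 σ ∧ κ σ ≠ 0 := by
  have hℓ : ℓ.Prime := Fact.out
  obtain ⟨m, A, r, c, hA0, hA, hm, hr0, hpr, hc0, hAn, hAloc⟩ := exists_seq_two ℓ p hp hpℓ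
  obtain ⟨ζ, hζ, hζs⟩ := exists_zeta k ℓ
  obtain ⟨u, hu, huA⟩ := exists_roots k ℓ m A hA0 hA
  have hApos : ∀ i, 0 < A i := by
    intro i
    cases i with
    | zero => rw [hA0]; exact Nat.one_pos
    | succ i =>
      obtain ⟨b, hb⟩ := hAn i
      rw [hb]
      exact Nat.mul_pos (pow_pos hp.pos _) (pow_pos hr0 _)
  obtain ⟨κ, h1, h2, h3⟩ := exists_kummer ζ hζ hζs m A hm hApos u hu huA
  refine ⟨κ, h2, h3, kum_inC_of κ h2 h3 (p * r * ℓ)
    (Nat.mul_ne_zero (Nat.mul_ne_zero hp.ne_zero hr0.ne') hℓ.ne_zero) ?_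
    (local_split ζ hζ A hApos hAloc u huA κ h1), ?_⟩
  · intro 𝔓 h𝔓 hN σ hσ
    have hprime : 𝔓.IsPrime := h𝔓.isPrime
    rw [Nat.cast_mul, Nat.cast_mul] at hN
    have hℓ𝔓 : (ℓ : Zb k) ∉ 𝔓 := fun h => hN (𝔓.mul_mem_left _ h)
    have hp𝔓 : (p : Zb k) ∉ 𝔓 := fun h => hN (𝔓.mul_mem_right _ (𝔓.mul_mem_right _ h))
    have hr𝔓 : (r : Zb k) ∉ 𝔓 := fun h => hN (𝔓.mul_mem_right _ (𝔓.mul_mem_left _ h))
    refine kummer_unram ζ hζ A u huA κ h1 h𝔓 hℓ𝔓 ?_ hσ
    intro n hmem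
    cases n with
    | zero =>
      rw [hA0, Nat.cast_one] at hmem
      exact h𝔓.ne_top ((Ideal.eq_top_iff_one _).mpr hmem)
    | succ n =>
      obtain ⟨b, hb⟩ := hAn n
      rw [hb, Nat.cast_mul, Nat.cast_pow, Nat.cast_pow] at hmem
      rcases hprime.mem_or_mem hmem with h | h
      · exact hp𝔓 (hprime.mem_of_pow_mem _ h)
      · exact hr𝔓 (hprime.mem_of_pow_mem _ h)
  · intro 𝔓 h𝔓 hp𝔓
    have hprime : 𝔓.IsPrime := h𝔓.isPrime
    by_contra hcon
    push Not at hcon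
    have hℓ𝔓 : (ℓ : Zb k) ∉ 𝔓 := fun h => hpℓ (prime_unique h𝔓 hp hℓ hp𝔓 h)
    have hr𝔓 : ∀ b : ℕ, ((r ^ b : ℕ) : Zb k) ∉ 𝔓 := by
      intro b hmem
      rw [Nat.cast_pow] at hmem
      have hmem' := hprime.mem_of_pow_mem _ hmem
      have hcop : IsCoprime (p : ℤ) (r : ℤ) :=
        Nat.isCoprime_iff_coprime.mpr ((Nat.Prime.coprime_iff_not_dvd hp).mpr hpr)
      obtain ⟨a, b, hab⟩ := hcop
      apply h𝔓.ne_top
      rw [Ideal.eq_top_iff_one]
      have h5 : ((a * (p : ℤ) + b * (r : ℤ) : ℤ) : Zb k) = 1 := by rw [hab, Int.cast_one]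
      rw [← h5, Int.cast_add, Int.cast_mul, Int.cast_mul, Int.cast_natCast, Int.cast_natCast]
      exact Ideal.add_mem _ (Ideal.mul_mem_left _ _ hp𝔓) (Ideal.mul_mem_left _ _ hmem')
    obtain ⟨M, hM⟩ := exists_bound h𝔓 p hp.ne_zero hp𝔓 c hc0
    set n := M + 1 with hn
    have hfin : FiniteDimensional k (IntermediateField.adjoin k {ζ n, u n}) :=
      IntermediateField.finiteDimensional_adjoin (fun x _ => Algebra.IsIntegral.isIntegral x)
    have hζK : ζ n ∈ IntermediateField.adjoin k {ζ n, u n} :=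
      IntermediateField.subset_adjoin _ _ (by simp)
    have huK : u n ∈ IntermediateField.adjoin k {ζ n, u n} :=
      IntermediateField.subset_adjoin _ _ (by simp)
    have hnorm : Normal k (IntermediateField.adjoin k {ζ n, u n}) := by
      rw [IntermediateField.normal_iff_forall_map_le']
      intro g
      rw [IntermediateField.adjoin_map, IntermediateField.adjoin_le_iff]
      rintro _ ⟨x, hx, rfl⟩
      rcases hx with rfl | hx
      · change g (ζ n) ∈ _
        rw [cyc_spec k ℓ g n (ζ n) (hζ n).pow_eq_one]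
        exact pow_mem hζK _
      · rw [Set.mem_singleton_iff] at hx
        subst hx
        change g (u n) ∈ _
        rw [h1]
        exact mul_mem (pow_mem hζK _) huK
    have hfix : ∀ σ : GG k, FrobAt 𝔓 1 σ → ∀ x : IntermediateField.adjoin k {ζ n, u n},
        σ (x : AlgebraicClosure k) = x := by
      intro σ hσ x
      have h5 : κ σ = 0 := hcon σ hσ
      have h6 : (cyc k ℓ σ : ℤ_[ℓ]) = 1 := by
        rw [cyc_of_frobAt h𝔓 hℓ𝔓 hσ, Nat.cast_one]
      have h7 : σ (ζ n) = ζ n := by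
        rw [cyc_spec k ℓ σ n (ζ n) (hζ n).pow_eq_one, h6, map_one]
        have := pow_val_natCast (ζ n) (hζ n).pow_eq_one 1
        rwa [Nat.cast_one, pow_one] at this
      have h8 : σ (u n) = u n := by
        rw [h1, h5, map_zero, ZMod.val_zero, pow_zero, one_mul]
      have h9 : ∀ y ∈ IntermediateField.adjoin k {ζ n, u n}, σ y = y := by
        intro y hy
        induction hy using IntermediateField.adjoin_induction with
        | mem y hy =>
          rcases hy with rfl | hy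
          · exact h7
          · rw [Set.mem_singleton_iff] at hy
            rw [hy]
            exact h8
        | algebraMap y => exact σ.commutes y
        | add y z _ _ hy hz => rw [map_add, hy, hz]
        | inv y _ hy => rw [map_inv₀, hy]
        | mul y z _ _ hy hz => rw [map_mul, hy, hz]
      exact h9 x x.2
    obtain ⟨b, hb⟩ := hAn M
    have h10 := hM (IntermediateField.adjoin k {ζ n, u n}) hfix (r ^ b) (ℓ ^ n) (hr𝔓 b) (u n) huK
      (by rw [huA n, hn, hb])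
    have h11 : n < ℓ ^ n := Nat.lt_pow_self hℓ.one_lt
    omega

end Pool.Agent.EXK
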