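import Mathlib
import Pool.Agent.FRC.YON

/-!
Vanishing of `Ext²(B, Y)` gives iterated extensions: if `0 → A → E → B → 0` and
`0 → Y → K → A → 0` are exact, there is `0 → Y → X → E → 0` whose restriction to `A` is `K`.
-/

open CategoryTheory CategoryTheory.Limits CategoryTheory.Abelian

namespace Pool.Agent.EXK

open Pool.Agent.FRC

universe w v u

variable {C : Type u} [Category.{v} C] [Abelian C] [HasExt.{w} C]

/-- Every class of degree one is the class of a short exact sequence. -/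
theorem exists_extClass {E Y : C} (x : Ext.{w} E Y 1) :
    ∃ (X : C) (i : Y ⟶ X) (p : X ⟶ E) (w : i ≫ p = 0)
      (hS : (ShortComplex.mk i p w).ShortExact), hS.extClass = x := by
  obtain ⟨K, P, i0, p0, w0, hS0, y, hx⟩ := exists_extClass_comp (n := 0) x
  obtain ⟨f, rfl⟩ := (Ext.mk₀_bijective K Y).2 y
  have : Mono i0 := hS0.mono_f
  have : Epi p0 := hS0.epi_g
  let X : C := pushout f i0
  let i : Y ⟶ X := pushout.inl f i0
  let j : P ⟶ X := pushout.inr f i0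
  have hcomm : f ≫ i = i0 ≫ j := pushout.condition
  let p : X ⟶ E := pushout.desc 0 p0 (by rw [comp_zero, w0])
  have hip : i ≫ p = 0 := pushout.inl_desc _ _ _
  have hjp : j ≫ p = p0 := pushout.inr_desc _ _ _
  have : Mono i := inferInstanceAs (Mono (pushout.inl f i0))
  have : Epi p := by
    have : Epi (j ≫ p) := by rw [hjp]; infer_instance
    exact epi_of_epi j p
  have hex : (ShortComplex.mk i p hip).Exact := by
    refine ShortComplex.exact_of_g_is_cokernel _ (CokernelCofork.IsColimit.ofπ' _ _ ?_)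
    intro Z t ht
    have h1 : i0 ≫ (j ≫ t) = 0 := by
      rw [← Category.assoc, ← hcomm, Category.assoc]
      have : i ≫ t = 0 := ht
      rw [this, comp_zero]
    have hc := hS0.gIsCokernel
    refine ⟨hc.desc (CokernelCofork.ofπ (j ≫ t) h1), ?_⟩
    have h2 : p0 ≫ hc.desc (CokernelCofork.ofπ (j ≫ t) h1) = j ≫ t :=
      hc.fac _ WalkingParallelPair.one
    apply pushout.hom_ext
    · change i ≫ p ≫ _ = i ≫ t
      rw [← Category.assoc, hip, zero_comp]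
      exact ht.symm
    · change j ≫ p ≫ _ = j ≫ t
      rw [← Category.assoc, hjp, h2]
  have hS : (ShortComplex.mk i p hip).ShortExact := { exact := hex }
  refine ⟨X, i, p, hip, hS, ?_⟩
  let φ : ShortComplex.mk i0 p0 w0 ⟶ ShortComplex.mk i p hip :=
    { τ₁ := f, τ₂ := j, τ₃ := 𝟙 E, comm₁₂ := hcomm, comm₂₃ := by simp [hjp] }
  have h := ShortComplex.ShortExact.extClass_naturality hS0 hS φ
  rw [hx]
  have h3 : (Ext.mk₀ φ.τ₃).comp hS.extClass (zero_add 1) = hS.extClass := by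
    change (Ext.mk₀ (𝟙 E)).comp hS.extClass (zero_add 1) = _
    rw [Ext.mk₀_id_comp]
  rw [← h3, ← h]

/-- The lifting statement. -/
theorem exists_lift {A E B Y K : C} {a : A ⟶ E} {b : E ⟶ B} {wab : a ≫ b = 0}
    (hS : (ShortComplex.mk a b wab).ShortExact) {i' : Y ⟶ K} {p' : K ⟶ A} {w' : i' ≫ p' = 0}
    (hT : (ShortComplex.mk i' p' w').ShortExact) (h2 : ∀ x : Ext.{w} B Y 2, x = 0) :
    ∃ (X : C) (i : Y ⟶ X) (p : X ⟶ E) (m : K ⟶ X) (w : i ≫ p = 0),
      (ShortComplex.mk i p w).ShortExact ∧ i' ≫ m = i ∧ m ≫ p = p' ≫ a := by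
  let eT : Ext.{w} A Y 1 := hT.extClass
  obtain ⟨x₂, hx₂⟩ : ∃ x₂ : Ext.{w} E Y 1, (Ext.mk₀ a).comp x₂ (zero_add 1) = eT :=
    Ext.contravariant_sequence_exact₁ hS Y hT.extClass (show 1 + 1 = 2 from rfl) (h2 _)
  obtain ⟨X, i, p, w, hX, hx⟩ := exists_extClass x₂
  let eX : Ext.{w} E Y 1 := hX.extClass
  have hXi : eX.comp (Ext.mk₀ i) (add_zero 1) = 0 := hX.extClass_comp
  have hx' : eX = x₂ := hx
  -- extend `i` to `K`
  have h3 : eT.comp (Ext.mk₀ i) (add_zero 1) = 0 := by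
    rw [← hx₂, ← hx', Ext.comp_assoc_of_third_deg_zero, hXi, Ext.comp_zero]
  obtain ⟨m0, hm0⟩ : ∃ m0 : Ext.{w} K X 0, (Ext.mk₀ i').comp m0 (zero_add 0) = Ext.mk₀ i :=
    Ext.contravariant_sequence_exact₁ hT X (Ext.mk₀ i) (show 1 + 0 = 1 from rfl) h3
  obtain ⟨m, rfl⟩ := (Ext.mk₀_bijective K X).2 m0
  rw [Ext.mk₀_comp_mk₀] at hm0
  have hm : i' ≫ m = i := (Ext.mk₀_bijective _ _).1 hm0
  -- the induced map `A ⟶ E`
  have h4 : i' ≫ (m ≫ p) = 0 := by rw [← Category.assoc, hm, w]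
  obtain ⟨a', ha'⟩ : ∃ a' : A ⟶ E, p' ≫ a' = m ≫ p := by
    have hc := hT.gIsCokernel
    exact ⟨hc.desc (CokernelCofork.ofπ (m ≫ p) h4), hc.fac _ WalkingParallelPair.one⟩
  let φ : ShortComplex.mk i' p' w' ⟶ ShortComplex.mk i p w :=
    { τ₁ := 𝟙 Y, τ₂ := m, τ₃ := a', comm₁₂ := by simp [hm], comm₂₃ := ha'.symm }
  have hnat : eT.comp (Ext.mk₀ (𝟙 Y)) (add_zero 1) = (Ext.mk₀ a').comp eX (zero_add 1) :=
    ShortComplex.ShortExact.extClass_naturality hT hX φ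
  rw [Ext.comp_mk₀_id] at hnat
  have hdiff : (Ext.mk₀ (a - a')).comp eX (zero_add 1) = 0 := by
    have e1 : Ext.mk₀ (a - a') + Ext.mk₀ a' = Ext.mk₀ a := by
      rw [← Ext.mk₀_add, sub_add_cancel]
    have e2 : (Ext.mk₀ (a - a') + Ext.mk₀ a').comp eX (zero_add 1) = eT := by
      rw [e1, hx', hx₂]
    rw [Ext.add_comp, ← hnat] at e2
    exact add_eq_right.mp e2
  obtain ⟨h0, hh0⟩ : ∃ h0 : Ext.{w} A X 0, h0.comp (Ext.mk₀ p) (add_zero 0) = Ext.mk₀ (a - a') :=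
    Ext.covariant_sequence_exact₃ A hX (Ext.mk₀ (a - a')) (show 0 + 1 = 1 from rfl) hdiff
  obtain ⟨h, rfl⟩ := (Ext.mk₀_bijective A X).2 h0
  rw [Ext.mk₀_comp_mk₀] at hh0
  have hh : h ≫ p = a - a' := (Ext.mk₀_bijective _ _).1 hh0
  refine ⟨X, i, p, m + p' ≫ h, w, hX, ?_, ?_⟩
  · rw [Preadditive.comp_add, hm, ← Category.assoc, w', zero_comp, add_zero]
  · rw [Preadditive.add_comp, Category.assoc, hh, Preadditive.comp_sub, ha']
    abel

end Pool.Agent.EXK
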