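import Mathlib

/-!
Self-extensions of an absolutely irreducible representation with vanishing trace cocycle split.
-/

namespace Pool.Agent.EXK

open Module

section Burnside

variable {K G V : Type*} [Field K] [Group G] [AddCommGroup V] [Module K V] [FiniteDimensional K V]

/-- Burnside: if `ρ` is irreducible and has only scalar endomorphisms, every endomorphism of `V`
comes from the group algebra. -/
theorem exists_algebra (ρ : Representation K G V)
    (hirr : ∀ A : Submodule K V, (∀ g, ∀ v ∈ A, ρ g v ∈ A) → A = ⊥ ∨ A = ⊤)
    (hend : ∀ f : End K V, (∀ g v, f (ρ g v) = ρ g (f v)) → ∃ c : K, ∀ v, f v = c • v)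
    (T : End K V) : ∃ a : MonoidAlgebra K G, ρ.asAlgebraHom a = T := by
  rcases subsingleton_or_nontrivial V with hV | hV
  · exact ⟨0, LinearMap.ext fun v => Subsingleton.elim _ _⟩
  have hsm : ∀ (g : G) (x : ρ.asModule), ρ.asModuleEquiv (MonoidAlgebra.of K G g • x) =
      ρ g (ρ.asModuleEquiv x) := by
    intro g x
    rw [Representation.asModuleEquiv_map_smul, Representation.asAlgebraHom_of]
  have hsimple : IsSimpleModule (MonoidAlgebra K G) ρ.asModule := by
    rw [isSimpleModule_iff]
    refine { exists_pair_ne := ⟨⊥, ⊤, ?_⟩, eq_bot_or_eq_top := fun A => ?_ }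
    · intro h
      obtain ⟨v, hv⟩ := exists_ne (0 : V)
      have h1 : ρ.asModuleEquiv.symm v ∈ (⊥ : Submodule (MonoidAlgebra K G) ρ.asModule) := by
        rw [h]; trivial
      rw [Submodule.mem_bot] at h1
      apply hv
      have := congrArg ρ.asModuleEquiv h1
      rwa [LinearEquiv.apply_symm_apply, map_zero] at this
    · let A' : Submodule K V :=
        { carrier := {v | ρ.asModuleEquiv.symm v ∈ A}
          add_mem' := by
            intro a b ha hb
            change ρ.asModuleEquiv.symm (a + b) ∈ A
            rw [map_add]
            exact A.add_mem ha hb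
          zero_mem' := by
            change ρ.asModuleEquiv.symm 0 ∈ A
            rw [map_zero]
            exact A.zero_mem
          smul_mem' := by
            intro c v hv
            change ρ.asModuleEquiv.symm (c • v) ∈ A
            have : ρ.asModuleEquiv.symm (c • v) =
                (algebraMap K (MonoidAlgebra K G) c) • ρ.asModuleEquiv.symm v := by
              apply ρ.asModuleEquiv.injective
              rw [LinearEquiv.apply_symm_apply, Representation.asModuleEquiv_map_smul,
                AlgHom.commutes, LinearEquiv.apply_symm_apply]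
              rfl
            rw [this]
            exact A.smul_mem _ hv }
      have hA' : ∀ g, ∀ v ∈ A', ρ g v ∈ A' := by
        intro g v hv
        change ρ.asModuleEquiv.symm (ρ g v) ∈ A
        have : ρ.asModuleEquiv.symm (ρ g v) = MonoidAlgebra.of K G g • ρ.asModuleEquiv.symm v := by
          apply ρ.asModuleEquiv.injective
          rw [LinearEquiv.apply_symm_apply, hsm, LinearEquiv.apply_symm_apply]
        rw [this]
        exact A.smul_mem _ hv
      have key : ∀ x : ρ.asModule, x ∈ A ↔ ρ.asModuleEquiv x ∈ A' := by
        intro x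
        change _ ↔ ρ.asModuleEquiv.symm (ρ.asModuleEquiv x) ∈ A
        rw [LinearEquiv.symm_apply_apply]
      rcases hirr A' hA' with h | h
      · left
        rw [eq_bot_iff]
        intro x hx
        rw [key, h, Submodule.mem_bot] at hx
        rw [Submodule.mem_bot]
        exact ρ.asModuleEquiv.injective (by rw [hx, map_zero])
      · right
        rw [eq_top_iff]
        intro x _
        rw [key, h]
        trivial
  -- every `K`-linear map is linear over the endomorphism ring
  let F : End (End (MonoidAlgebra K G) ρ.asModule) ρ.asModule :=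
    { toFun := fun x => ρ.asModuleEquiv.symm (T (ρ.asModuleEquiv x))
      map_add' := by
        intro x y
        rw [map_add, map_add, map_add]
      map_smul' := by
        intro φ x
        let f : End K V :=
          { toFun := fun v => ρ.asModuleEquiv (φ (ρ.asModuleEquiv.symm v))
            map_add' := by
              intro v w
              rw [map_add, map_add, map_add]
            map_smul' := by
              intro c v
              have h1 : ρ.asModuleEquiv.symm (c • v) =
                  (algebraMap K (MonoidAlgebra K G) c) • ρ.asModuleEquiv.symm v := by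
                apply ρ.asModuleEquiv.injective
                rw [LinearEquiv.apply_symm_apply, Representation.asModuleEquiv_map_smul,
                  AlgHom.commutes, LinearEquiv.apply_symm_apply]
                rfl
              rw [h1, map_smul, Representation.asModuleEquiv_map_smul, AlgHom.commutes]
              rfl }
        have hf : ∀ g v, f (ρ g v) = ρ g (f v) := by
          intro g v
          change ρ.asModuleEquiv (φ (ρ.asModuleEquiv.symm (ρ g v))) = _
          have h1 : ρ.asModuleEquiv.symm (ρ g v) =
              MonoidAlgebra.of K G g • ρ.asModuleEquiv.symm v := by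
            apply ρ.asModuleEquiv.injective
            rw [LinearEquiv.apply_symm_apply, hsm, LinearEquiv.apply_symm_apply]
          rw [h1, map_smul, hsm]
          rfl
        obtain ⟨c, hc⟩ := hend f hf
        have hφ : ∀ y : ρ.asModule, ρ.asModuleEquiv (φ y) = c • ρ.asModuleEquiv y := by
          intro y
          have := hc (ρ.asModuleEquiv y)
          change ρ.asModuleEquiv (φ (ρ.asModuleEquiv.symm (ρ.asModuleEquiv y))) = _ at this
          rwa [LinearEquiv.symm_apply_apply] at this
        apply ρ.asModuleEquiv.injective
        change ρ.asModuleEquiv (ρ.asModuleEquiv.symm (T (ρ.asModuleEquiv (φ x)))) =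
          ρ.asModuleEquiv (φ (ρ.asModuleEquiv.symm (T (ρ.asModuleEquiv x))))
        rw [LinearEquiv.apply_symm_apply, hφ, hφ, LinearEquiv.apply_symm_apply, map_smul] }
  let b := Module.finBasis K V
  classical
  obtain ⟨a, ha⟩ := jacobson_density (R := MonoidAlgebra K G) F
    (Finset.univ.image fun i => ρ.asModuleEquiv.symm (b i))
  refine ⟨a, ?_⟩
  apply b.ext
  intro i
  have h1 := ha (ρ.asModuleEquiv.symm (b i)) (Finset.mem_image_of_mem _ (Finset.mem_univ i))
  have h2 := congrArg ρ.asModuleEquiv h1
  rw [Representation.asModuleEquiv_map_smul, LinearEquiv.apply_symm_apply] at h2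
  rw [← h2]
  change ρ.asModuleEquiv (ρ.asModuleEquiv.symm (T (ρ.asModuleEquiv (ρ.asModuleEquiv.symm (b i))))) = _
  rw [LinearEquiv.apply_symm_apply, LinearEquiv.apply_symm_apply]

/-- A cocycle `D` (so that `(ρ, D; 0, ρ)` is a self-extension of `ρ`) with vanishing trace is
inner, if `ρ` is irreducible and has only scalar endomorphisms. -/
theorem inner_of_trace (ρ : Representation K G V)
    (hirr : ∀ A : Submodule K V, (∀ g, ∀ v ∈ A, ρ g v ∈ A) → A = ⊥ ∨ A = ⊤)
    (hend : ∀ f : End K V, (∀ g v, f (ρ g v) = ρ g (f v)) → ∃ c : K, ∀ v, f v = c • v)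
    (D : G → End K V) (hD : ∀ g h v, D (g * h) v = ρ g (D h v) + D g (ρ h v))
    (htr : ∀ g, LinearMap.trace K V (D g) = 0) :
    ∃ X : End K V, ∀ g v, D g v = X (ρ g v) - ρ g (X v) := by
  rcases subsingleton_or_nontrivial V with hV | hV
  · exact ⟨0, fun g v => Subsingleton.elim _ _⟩
  let Dt : MonoidAlgebra K G →ₗ[K] End K V :=
    (Finsupp.linearCombination K D) ∘ₗ (MonoidAlgebra.coeffLinearEquiv K).toLinearMap
  have hDt : ∀ g, Dt (MonoidAlgebra.of K G g) = D g := by
    intro g
    change Finsupp.linearCombination K D (Finsupp.single g 1) = D g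
    rw [Finsupp.linearCombination_single, one_smul]
  set R : MonoidAlgebra K G →ₐ[K] End K V := ρ.asAlgebraHom with hR
  have hRg : ∀ g, R (MonoidAlgebra.of K G g) = ρ g := fun g => ρ.asAlgebraHom_of g
  -- the cocycle relation on the group algebra
  have hmul1 : ∀ (g : G) (b : MonoidAlgebra K G),
      Dt (MonoidAlgebra.of K G g * b) = ρ g * Dt b + D g * R b := by
    intro g b
    induction b using MonoidAlgebra.induction_on with
    | of h =>
      change Dt (MonoidAlgebra.of K G g * MonoidAlgebra.of K G h) =
        ρ g * Dt (MonoidAlgebra.of K G h) + D g * R (MonoidAlgebra.of K G h)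
      rw [← map_mul, hDt, hDt, hRg]
      exact LinearMap.ext fun v => hD g h v
    | add x y hx hy =>
      rw [mul_add, map_add, map_add, map_add, hx, hy, mul_add, mul_add]
      abel
    | smul c x hx =>
      rw [mul_smul_comm, map_smul, map_smul, map_smul, hx, smul_add, mul_smul_comm, mul_smul_comm]
  have hmul : ∀ a b : MonoidAlgebra K G, Dt (a * b) = R a * Dt b + Dt a * R b := by
    intro a b
    induction a using MonoidAlgebra.induction_on with
    | of g =>
      change Dt (MonoidAlgebra.of K G g * b) = R (MonoidAlgebra.of K G g) * Dt b +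
        Dt (MonoidAlgebra.of K G g) * R b
      rw [hmul1, hRg, hDt]
    | add x y hx hy =>
      rw [add_mul, map_add, map_add, map_add, hx, hy, add_mul, add_mul]
      abel
    | smul c x hx =>
      rw [smul_mul_assoc, map_smul, map_smul, map_smul, hx, smul_add, smul_mul_assoc,
        smul_mul_assoc]
  have htrD : ∀ a : MonoidAlgebra K G, LinearMap.trace K V (Dt a) = 0 := by
    intro a
    induction a using MonoidAlgebra.induction_on with
    | of g =>
      change LinearMap.trace K V (Dt (MonoidAlgebra.of K G g)) = 0
      rw [hDt]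
      exact htr g
    | add x y hx hy => rw [map_add, map_add, hx, hy, add_zero]
    | smul c x hx => rw [map_smul, map_smul, hx, smul_zero]
  have hsurj : ∀ T : End K V, ∃ a, R a = T := exists_algebra ρ hirr hend
  -- `Dt` factors through `R`
  have hker : ∀ a, R a = 0 → Dt a = 0 := by
    intro a ha
    apply LinearMap.ext
    intro v
    rw [LinearMap.zero_apply, ← Module.forall_dual_apply_eq_zero_iff K]
    intro f
    obtain ⟨b, hb⟩ := hsurj (f.smulRight v)
    have h1 := htrD (a * b)
    rw [hmul, ha, zero_mul, zero_add, hb] at h1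
    have h2 : Dt a * f.smulRight v = f.smulRight (Dt a v) := by
      apply LinearMap.ext
      intro w
      change Dt a (f w • v) = f w • Dt a v
      rw [map_smul]
    rw [h2, LinearMap.trace_smulRight] at h1
    exact h1
  obtain ⟨S, hS⟩ := LinearMap.exists_rightInverse_of_surjective (R.toLinearMap)
    (LinearMap.range_eq_top.mpr hsurj)
  have hS' : ∀ T, R (S T) = T := fun T => congrArg (fun φ : End K V →ₗ[K] End K V => φ T) hS
  obtain ⟨v0, hv0⟩ := exists_ne (0 : V)
  obtain ⟨f0, hf0⟩ : ∃ f0 : Module.Dual K V, f0 v0 = 1 := by
    have h0 : ¬ ∀ f : Module.Dual K V, f v0 = 0 := by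
      rw [Module.forall_dual_apply_eq_zero_iff K]
      exact hv0
    push Not at h0
    obtain ⟨f, hf⟩ := h0
    exact ⟨(f v0)⁻¹ • f, inv_mul_cancel₀ hf⟩
  let X : End K V :=
    { toFun := fun v => Dt (S (f0.smulRight v)) v0
      map_add' := by
        intro v w
        have : f0.smulRight (v + w) = f0.smulRight v + f0.smulRight w := by
          ext x; simp
        rw [this, map_add, map_add]
        rfl
      map_smul' := by
        intro c v
        have : f0.smulRight (c • v) = c • f0.smulRight v := by
          apply LinearMap.ext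
          intro x
          exact smul_comm _ _ _
        rw [this, map_smul, map_smul]
        rfl }
  refine ⟨X, fun g v => ?_⟩
  have h1 : Dt (S (f0.smulRight (ρ g v))) = Dt (MonoidAlgebra.of K G g * S (f0.smulRight v)) := by
    rw [← sub_eq_zero, ← map_sub]
    apply hker
    rw [map_sub, hS', map_mul, hRg, hS', sub_eq_zero]
    ext x
    simp
  have h2 : X (ρ g v) = ρ g (X v) + D g v := by
    change Dt (S (f0.smulRight (ρ g v))) v0 = _
    rw [h1, hmul1, hS']
    change ρ g (Dt (S (f0.smulRight v)) v0) + D g (f0 v0 • v) = _
    rw [hf0, one_smul]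
    rfl
  rw [h2]
  abel

end Burnside

section Split

variable {K G V E : Type*} [Field K] [Group G] [AddCommGroup V] [Module K V]
  [FiniteDimensional K V] [AddCommGroup E] [Module K E]

omit [FiniteDimensional K V] in
/-- The trace of the cocycle vanishes at an element over which the extension splits. -/
theorem trace_eq_zero {A D : End K V} {T : End K E} {i s : V →ₗ[K] E}
    (hD : ∀ v, T (s v) = s (A v) + i (D v)) {r : E →ₗ[K] V} (hr : ∀ v, r (i v) = v)
    (hrT : ∀ e, r (T e) = A (r e)) : LinearMap.trace K V D = 0 := by
  have h : D = A * (r ∘ₗ s) - (r ∘ₗ s) * A := by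
    apply LinearMap.ext
    intro v
    change D v = A (r (s v)) - r (s (A v))
    rw [← hrT, hD, map_add, hr]
    abel
  rw [h, map_sub, LinearMap.trace_mul_comm, sub_self]

/-- A self-extension of an absolutely irreducible representation whose cocycle has trace zero
splits. -/
theorem split_of_trace (ρ : Representation K G V) (ρE : Representation K G E)
    (hirr : ∀ A : Submodule K V, (∀ g, ∀ v ∈ A, ρ g v ∈ A) → A = ⊥ ∨ A = ⊤)
    (hend : ∀ f : End K V, (∀ g v, f (ρ g v) = ρ g (f v)) → ∃ c : K, ∀ v, f v = c • v)
    (i s : V →ₗ[K] E) (hi : Function.Injective i) (hig : ∀ g v, ρE g (i v) = i (ρ g v))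
    (D : G → End K V) (hD : ∀ g v, ρE g (s v) = s (ρ g v) + i (D g v))
    (htr : ∀ g, LinearMap.trace K V (D g) = 0) :
    ∃ s' : V →ₗ[K] E, (∀ g v, ρE g (s' v) = s' (ρ g v)) ∧ ∀ v, ∃ w, s' v = s v + i w := by
  have hcoc : ∀ g h v, D (g * h) v = ρ g (D h v) + D g (ρ h v) := by
    intro g h v
    apply hi
    have h1 := hD (g * h) v
    have h2 : ρE (g * h) (s v) = ρE g (ρE h (s v)) := by rw [map_mul]; rfl
    have h3 : ρ (g * h) v = ρ g (ρ h v) := by rw [map_mul]; rfl
    rw [h2, hD h, map_add, hD g, hig, h3, add_assoc] at h1
    have h4 := add_left_cancel h1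
    rw [← h4, map_add]
    abel
  obtain ⟨X, hX⟩ := inner_of_trace ρ hirr hend D hcoc htr
  refine ⟨s + i ∘ₗ X, fun g v => ?_, fun v => ⟨X v, rfl⟩⟩
  change ρE g (s v + i (X v)) = s (ρ g v) + i (X (ρ g v))
  rw [map_add, hD, hig, hX, map_sub]
  abel

end Split

end Pool.Agent.EXK
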