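import Mathlib
import Pool.Agent.EXK.TRA

/-!
Traces over a finite separable extension of the base field.
-/

namespace Pool.Agent.EXK

open Module

section Trace

variable {K F V E : Type*} [Field K] [Field F] [Algebra K F] [FiniteDimensional K F]
  [AddCommGroup V] [Module K V] [Module F V] [IsScalarTower K F V] [FiniteDimensional F V]

/-- Transitivity of the trace for linear maps. -/
theorem trace_restrictScalars (T : V →ₗ[F] V) :
    LinearMap.trace K V (T.restrictScalars K) = Algebra.trace K F (LinearMap.trace F V T) := by
  have hfin : FiniteDimensional K V := Module.Finite.trans F V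
  let b := Module.finBasis F V
  -- rank one operators
  have h1 : ∀ (f : Module.Dual F V) (v : V),
      LinearMap.trace K V ((f.smulRight v).restrictScalars K) = Algebra.trace K F (f v) := by
    intro f v
    let A : F →ₗ[K] V := ((LinearMap.id : F →ₗ[F] F).smulRight v).restrictScalars K
    let B : V →ₗ[K] F := f.restrictScalars K
    have e1 : (f.smulRight v).restrictScalars K = A ∘ₗ B := rfl
    rw [e1, LinearMap.trace_comp_comm', Algebra.trace_apply]
    congr 1
    apply LinearMap.ext
    intro c
    change f (c • v) = f v * c
    rw [map_smul, smul_eq_mul, mul_comm]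
  have h2 : T = ∑ i, (b.coord i).smulRight (T (b i)) := by
    apply b.ext
    intro j
    rw [LinearMap.sum_apply, Finset.sum_eq_single j]
    · simp
    · intro i _ hij
      simp [hij.symm]
    · simp
  have h3 : T.restrictScalars K =
      ∑ i, ((b.coord i).smulRight (T (b i))).restrictScalars K := by
    conv_lhs => rw [h2]
    apply LinearMap.ext
    intro v
    simp
  have h4 : LinearMap.trace F V T = ∑ i, b.coord i (T (b i)) := by
    conv_lhs => rw [h2]
    rw [map_sum]
    exact Finset.sum_congr rfl fun i _ => LinearMap.trace_smulRight _ _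
  rw [h3, map_sum, h4, map_sum]
  exact Finset.sum_congr rfl fun i _ => h1 _ _

/-- An `F`-linear map with `tr_K (c T) = 0` for all `c ∈ F` has trace zero over `F`. -/
theorem trace_eq_zero_of_forall [Algebra.IsSeparable K F] (T : V →ₗ[F] V)
    (h : ∀ c : F, LinearMap.trace K V ((c • T).restrictScalars K) = 0) :
    LinearMap.trace F V T = 0 := by
  have h1 : ∀ c : F, Algebra.traceForm K F (LinearMap.trace F V T) c = 0 := by
    intro c
    rw [Algebra.traceForm_apply, mul_comm, ← smul_eq_mul, ← map_smul, ← trace_restrictScalars]
    exact h c
  exact (traceForm_nondegenerate K F).1 _ h1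

variable [AddCommGroup E] [Module K E]

omit [FiniteDimensional K F] [FiniteDimensional F V] in
/-- If the extension splits over `K` and over one operator, all `tr_K (c D)` vanish. -/
theorem trace_smul_eq_zero {A D : V →ₗ[F] V} {T : End K E} {i s : V →ₗ[K] E}
    (hD : ∀ v, T (s v) = s (A v) + i (D v)) {r : E →ₗ[K] V} (hr : ∀ v, r (i v) = v)
    (hrT : ∀ e, r (T e) = A (r e)) (c : F) :
    LinearMap.trace K V ((c • D).restrictScalars K) = 0 := by
  let C : End K V := (c • (LinearMap.id : V →ₗ[F] V)).restrictScalars K
  let A' : End K V := A.restrictScalars K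
  have h : (c • D).restrictScalars K = A' * (C * (r ∘ₗ s)) - (C * (r ∘ₗ s)) * A' := by
    apply LinearMap.ext
    intro v
    change c • D v = A (c • r (s v)) - c • r (s (A v))
    rw [map_smul, ← hrT, hD, map_add, hr, smul_add]
    abel
  rw [h, map_sub, LinearMap.trace_mul_comm, sub_self]

end Trace

end Pool.Agent.EXK
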