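import Mathlib
import Pool.Agent.FRD.Lift
import Pool.Agent.EXK.TRF

/-!
From local splittings at Frobenius elements to a global splitting: a self-extension `E` of an
absolutely irreducible representation `V` over a coefficient field `F` (finite over `ℚ_ℓ`) that
splits over `ℚ_ℓ[σ]` for every Frobenius element `σ` at almost all primes splits.
-/

open CategoryTheory Polynomial NumberField

namespace Pool.Agent.EXK

open Pool.Agent.H12 Pool.Agent.FRC

variable {k : Type} [Field k] [NumberField k] {ℓ : ℕ} [Fact ℓ.Prime]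
variable {F : Type} [Field F] [Algebra ℚ_[ℓ] F] [FiniteDimensional ℚ_[ℓ] F]

omit [NumberField k] in
/-- A retraction compatible with `σ` is compatible with the powers of `σ`. -/
theorem retract_pow {V E : RepG k ℓ} {r : E →ₗ[ℚ_[ℓ]] V} {σ : GG k}
    (h : ∀ e, r (E.ρ σ e) = V.ρ σ (r e)) (j : ℕ) (e : E) :
    r (E.ρ (σ ^ j) e) = V.ρ (σ ^ j) (r e) := by
  induction j generalizing e with
  | zero => rw [pow_zero, map_one, map_one]; rfl
  | succ j ih =>
    have e1 : E.ρ (σ ^ (j + 1)) e = E.ρ σ (E.ρ (σ ^ j) e) := by rw [pow_succ', map_mul]; rfl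
    have e2 : V.ρ (σ ^ (j + 1)) (r e) = V.ρ σ (V.ρ (σ ^ j) (r e)) := by
      rw [pow_succ', map_mul]; rfl
    rw [e1, e2, h, ih]

theorem section_of_frob {V E : RepG k ℓ} [FiniteDimensional ℚ_[ℓ] V] [FiniteDimensional ℚ_[ℓ] E]
    [Module F V] [IsScalarTower ℚ_[ℓ] F V] [Module F E] [IsScalarTower ℚ_[ℓ] F E]
    (hVc : IsCont V) (hEc : IsCont E)
    (hVF : ∀ g (c : F) (v : V), V.ρ g (c • v) = c • V.ρ g v)
    (hEF : ∀ g (c : F) (e : E), E.ρ g (c • e) = c • E.ρ g e)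
    (i : V →ₗ[F] E) (p : E →ₗ[F] V) (hi : Function.Injective i) (hp : Function.Surjective p)
    (hpi : ∀ v, p (i v) = 0) (hex : ∀ e, p e = 0 → ∃ v, i v = e)
    (hig : ∀ g v, E.ρ g (i v) = i (V.ρ g v)) (hpg : ∀ g e, p (E.ρ g e) = V.ρ g (p e))
    (hirr : ∀ A : Submodule F V, (∀ g, ∀ v ∈ A, V.ρ g v ∈ A) → A = ⊥ ∨ A = ⊤)
    (hend : ∀ f : V →ₗ[F] V, (∀ g v, f (V.ρ g v) = V.ρ g (f v)) → ∃ c : F, ∀ v, f v = c • v)
    {N : ℕ} (hN : N ≠ 0)
    (hloc : ∀ 𝔓 : Ideal (Zb k), 𝔓.IsMaximal → (N : Zb k) ∉ 𝔓 → ∀ σ : GG k,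
      FrobAt 𝔓 (nrm 𝔓) σ → ∃ r : E →ₗ[ℚ_[ℓ]] V, (∀ v, r (i v) = v) ∧
        ∀ e, r (E.ρ σ e) = V.ρ σ (r e)) :
    ∃ s : V →ₗ[F] E, (∀ g v, E.ρ g (s v) = s (V.ρ g v)) ∧ ∀ v, p (s v) = v := by
  have hfinV : FiniteDimensional F V := FiniteDimensional.right ℚ_[ℓ] F V
  -- the representations over `F`
  let ρV : Representation F (GG k) V :=
    { toFun := fun g => { toFun := V.ρ g, map_add' := map_add _, map_smul' := hVF g }
      map_one' := LinearMap.ext fun v => by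
        change V.ρ 1 v = v
        rw [map_one]; rfl
      map_mul' := fun g h => LinearMap.ext fun v => by
        change V.ρ (g * h) v = V.ρ g (V.ρ h v)
        rw [map_mul]; rfl }
  let ρE : Representation F (GG k) E :=
    { toFun := fun g => { toFun := E.ρ g, map_add' := map_add _, map_smul' := hEF g }
      map_one' := LinearMap.ext fun v => by
        change E.ρ 1 v = v
        rw [map_one]; rfl
      map_mul' := fun g h => LinearMap.ext fun v => by
        change E.ρ (g * h) v = E.ρ g (E.ρ h v)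
        rw [map_mul]; rfl }
  obtain ⟨s, hs⟩ := LinearMap.exists_rightInverse_of_surjective p (LinearMap.range_eq_top.mpr hp)
  have hs' : ∀ v, p (s v) = v := fun v => congrArg (fun f : V →ₗ[F] V => f v) hs
  obtain ⟨t, ht⟩ := LinearMap.exists_leftInverse_of_injective i (LinearMap.ker_eq_bot.mpr hi)
  have ht' : ∀ v, t (i v) = v := fun v => congrArg (fun f : V →ₗ[F] V => f v) ht
  let D : GG k → Module.End F V := fun g => t ∘ₗ (ρE g ∘ₗ s - s ∘ₗ ρV g)
  have hDv : ∀ g v, D g v = t (E.ρ g (s v) - s (V.ρ g v)) := fun g v => rfl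
  have hD : ∀ g v, E.ρ g (s v) = s (V.ρ g v) + i (D g v) := by
    intro g v
    obtain ⟨w, hw⟩ := hex (E.ρ g (s v) - s (V.ρ g v)) (by rw [map_sub, hpg, hs', hs', sub_self])
    rw [hDv, ← hw, ht', hw]
    abel
  -- the traces over `ℚ_ℓ` are continuous
  have hcont : ∀ c : F, Continuous fun g : GG k =>
      LinearMap.trace ℚ_[ℓ] V ((c • D g).restrictScalars ℚ_[ℓ]) := by
    intro c
    let b := Module.finBasis ℚ_[ℓ] V
    have h1 : ∀ g : GG k, LinearMap.trace ℚ_[ℓ] V ((c • D g).restrictScalars ℚ_[ℓ]) =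
        ∑ j, (((b.coord j) ∘ₗ (c • t).restrictScalars ℚ_[ℓ]) (E.ρ g (s (b j))) -
          ((b.coord j) ∘ₗ (c • (t ∘ₗ s)).restrictScalars ℚ_[ℓ]) (V.ρ g (b j))) := by
      intro g
      rw [LinearMap.trace_eq_matrix_trace ℚ_[ℓ] b, Matrix.trace]
      refine Finset.sum_congr rfl fun j _ => ?_
      rw [Matrix.diag_apply, LinearMap.toMatrix_apply]
      change b.coord j (c • D g (b j)) = b.coord j (c • t (E.ρ g (s (b j)))) -
        b.coord j (c • t (s (V.ρ g (b j))))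
      rw [hDv, map_sub, smul_sub, map_sub]
    have h2 : (fun g : GG k => LinearMap.trace ℚ_[ℓ] V ((c • D g).restrictScalars ℚ_[ℓ])) =
        fun g => ∑ j, (((b.coord j) ∘ₗ (c • t).restrictScalars ℚ_[ℓ]) (E.ρ g (s (b j))) -
          ((b.coord j) ∘ₗ (c • (t ∘ₗ s)).restrictScalars ℚ_[ℓ]) (V.ρ g (b j))) := funext h1
    rw [h2]
    exact continuous_finsetSum _ fun j _ => (hEc _ _).sub (hVc _ _)
  have htr : ∀ g, LinearMap.trace F V (D g) = 0 := by
    intro g
    refine trace_eq_zero_of_forall (K := ℚ_[ℓ]) (D g) fun c => ?_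
    by_contra hne
    have hU : {h : GG k | LinearMap.trace ℚ_[ℓ] V ((c • D h).restrictScalars ℚ_[ℓ]) ≠ 0} ∈ nhds g :=
      (isOpen_ne.preimage (hcont c)).mem_nhds hne
    obtain ⟨𝔓, h𝔓, hNP, σ, hσ, j, hj⟩ := FRD.frob_nhds g _ hU N hN
    obtain ⟨r, hr, hrσ⟩ := hloc 𝔓 h𝔓 hNP σ hσ
    apply hj
    exact trace_smul_eq_zero (A := ρV (σ ^ j)) (T := E.ρ (σ ^ j))
      (i := i.restrictScalars ℚ_[ℓ]) (s := s.restrictScalars ℚ_[ℓ])
      (fun v => hD (σ ^ j) v) hr (fun e => retract_pow hrσ j e) c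
  obtain ⟨s', hs1, hs2⟩ := split_of_trace ρV ρE hirr hend i s hi (fun g v => hig g v) D
    (fun g v => hD g v) htr
  refine ⟨s', fun g v => hs1 g v, fun v => ?_⟩
  obtain ⟨w, hw⟩ := hs2 v
  rw [hw, map_add, hs', hpi, add_zero]

end Pool.Agent.EXK
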