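import Mathlib
import Pool.Agent.EXK.ASM
import Pool.Agent.EXK.SPF

/-!
Rigidity: if `V` is absolutely irreducible over a coefficient field `F` (finite over `ℚ_ℓ`) and
`Ext²(V, V(1)) = 0` in the category, then every `F`-linear self-extension of `V` splits.
-/

open CategoryTheory CategoryTheory.Limits CategoryTheory.Abelian Polynomial NumberField
  TensorProduct

namespace Pool.Agent.EXK

open Pool.Agent.H12 Pool.Agent.FRC

variable {k : Type} [Field k] [NumberField k] {ℓ : ℕ} [Fact ℓ.Prime]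

theorem rigid_F (F : Type) [Field F] [Algebra ℚ_[ℓ] F] [FiniteDimensional ℚ_[ℓ] F]
    {V E : MixCat k ℓ} (c : V ⟶ E) (d : E ⟶ V) (w : c ≫ d = 0)
    (hS : (ShortComplex.mk c d w).ShortExact) (h2 : ∀ x : Ext.{1} V (twObj V) 2, x = 0)
    (aV : F →ₐ[ℚ_[ℓ]] Module.End ℚ_[ℓ] V.obj) (aE : F →ₐ[ℚ_[ℓ]] Module.End ℚ_[ℓ] E.obj)
    (hVF : ∀ g x (v : V.obj), V.obj.ρ g (aV x v) = aV x (V.obj.ρ g v))
    (hEF : ∀ g x (e : E.obj), E.obj.ρ g (aE x e) = aE x (E.obj.ρ g e))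
    (hc : ∀ x (v : V.obj), c.hom.hom (aV x v) = aE x (c.hom.hom v))
    (hd : ∀ x (e : E.obj), d.hom.hom (aE x e) = aV x (d.hom.hom e))
    (hirr : ∀ A : Submodule ℚ_[ℓ] V.obj, (∀ g, ∀ v ∈ A, V.obj.ρ g v ∈ A) →
      (∀ x, ∀ v ∈ A, aV x v ∈ A) → A = ⊥ ∨ A = ⊤)
    (hend : ∀ f : V.obj →ₗ[ℚ_[ℓ]] V.obj, (∀ g v, f (V.obj.ρ g v) = V.obj.ρ g (f v)) →
      (∀ x v, f (aV x v) = aV x (f v)) → ∃ x : F, ∀ v, f v = aV x v) :
    ∃ s : V ⟶ E, s ≫ d = 𝟙 V ∧ ∀ x (v : V.obj), s.hom.hom (aV x v) = aE x (s.hom.hom v) := by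
  have hℓ : ℓ.Prime := Fact.out
  have hfinV : FiniteDimensional ℚ_[ℓ] V.obj := V.property.1
  have hfinE : FiniteDimensional ℚ_[ℓ] E.obj := E.property.1
  have hcomm : ∀ {A B : MixCat k ℓ} (f : A ⟶ B) (g : GG k) (x : A.obj),
      f.hom.hom (A.obj.ρ g x) = B.obj.ρ g (f.hom.hom x) := fun f g x =>
    Rep.hom_comm_apply f.hom g x
  let _ : Module F V.obj := Module.compHom V.obj (aV : F →+* Module.End ℚ_[ℓ] V.obj)
  let _ : Module F E.obj := Module.compHom E.obj (aE : F →+* Module.End ℚ_[ℓ] E.obj)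
  have hVs : ∀ (x : F) (v : V.obj), x • v = aV x v := fun x v => rfl
  have hEs : ∀ (x : F) (v : E.obj), x • v = aE x v := fun x v => rfl
  have hT1 : IsScalarTower ℚ_[ℓ] F V.obj := ⟨fun r x v => by
    rw [hVs, hVs, map_smul]; rfl⟩
  have hT2 : IsScalarTower ℚ_[ℓ] F E.obj := ⟨fun r x v => by
    rw [hEs, hEs, map_smul]; rfl⟩
  obtain ⟨N, hN0, hN⟩ := E.property.2.2.1
  have hS' := (shortExact_iff _).1 hS
  obtain ⟨hS1, hS2, hS3⟩ := hS'
  let cF : V.obj →ₗ[F] E.obj :=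
    { toFun := c.hom.hom, map_add' := map_add c.hom.hom.toLinearMap, map_smul' := fun x v => hc x v }
  let dF : E.obj →ₗ[F] V.obj :=
    { toFun := d.hom.hom, map_add' := map_add d.hom.hom.toLinearMap, map_smul' := fun x v => hd x v }
  obtain ⟨s, hs1, hs2⟩ := section_of_frob (F := F) (V := V.obj) (E := E.obj) V.property.2.1
    E.property.2.1 (fun g x v => hVF g x v) (fun g x e => hEF g x e) cF dF hS1 hS2
    (fun v => by
      have h := congrArg (fun t : V ⟶ V => t.hom.hom v) w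
      exact h)
    (fun e he => hS3 e he) (fun g v => (hcomm c g v).symm) (fun g e => hcomm d g e)
    (fun A hA => by
      have h1 := hirr (A.restrictScalars ℚ_[ℓ]) hA (fun x v hv => A.smul_mem x hv)
      rcases h1 with h1 | h1
      · left
        exact (Submodule.restrictScalars_eq_bot_iff _ _ _).1 h1
      · right
        exact (Submodule.restrictScalars_eq_top_iff _ _ _).1 h1)
    (fun f hf => by
      obtain ⟨x, hx⟩ := hend (f.restrictScalars ℚ_[ℓ]) hf (fun x v => f.map_smul x v)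
      exact ⟨x, hx⟩)
    (N := N * ℓ) (Nat.mul_ne_zero hN0 hℓ.ne_zero)
    (fun 𝔓 h𝔓 hNP σ hσ => by
      rw [Nat.cast_mul] at hNP
      have hN' : (N : Zb k) ∉ 𝔓 := fun h => hNP (𝔓.mul_mem_right _ h)
      have hℓ' : (ℓ : Zb k) ∉ 𝔓 := fun h => hNP (𝔓.mul_mem_left _ h)
      have hq : nrm 𝔓 ≠ 0 := (lt_trans Nat.zero_lt_one (one_lt_nrm h𝔓)).ne'
      exact frob_split hS h2 hN h𝔓 hℓ' hN' hq hσ)
  let s0 : V.obj ⟶ E.obj := Rep.ofHom
    ((s.restrictScalars ℚ_[ℓ]).intertwiningMap_of_isIntertwiningMap V.obj.ρ E.obj.ρ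
      (fun g v => (hs1 g v).symm))
  refine ⟨ObjectProperty.homMk s0, ?_, fun x v => s.map_smul x v⟩
  apply ObjectProperty.hom_ext
  apply Rep.hom_ext
  apply Representation.IntertwiningMap.ext
  apply LinearMap.ext
  intro v
  exact hs2 v

end Pool.Agent.EXK
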